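import Pool.Agent.helper4.QS.Basic

/-!
# Quantum cat maps at the shortest periods: statements of the modules

MP_07c750_an. Notation: `λ = lam t`, `u_k = lu t k`, `pw B e = B^e`, `‖n‖` is the supremum norm of
an integer vector (a real number), `ee x = exp(2πi x)`. Any statement of this file may be used as a
hypothesis of a module (no circles). The order of the file is a possible order of the proofs.
-/

open scoped BigOperators ComplexOrder ComplexConjugate Topology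

namespace Pool.Agent.QS

open Pool.Agent.helper86.CM Filter

noncomputable section

/-! ## A: arithmetic -/

/-- CAT. The matrix `A` gives a `Cat`. Proof: `AE g A hA` (Pool/Agent/helper58/CM/AO.lean or TW)
gives the equivalence; Cayley-Hamilton for a 2 x 2 matrix of determinant 1 (`A ∈ symplecticGroup`
for `g = 1` means `ad - bc = 1`); the trace `a + d` is even since `qf(A(1,0)) = ac`,
`qf(A(0,1)) = bd` are even (if `a` is odd then `c` is even and `ad = 1 + bc` odd; if `a` is even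
then `bc` is odd, and `bd` even gives `d` even). -/
def CAT_stmt : Prop :=
  ∀ A : Matrix (Fin 1 ⊕ Fin 1) (Fin 1 ⊕ Fin 1) ℤ, A ∈ Matrix.symplecticGroup (Fin 1) ℤ →
    (∀ n : Lat 1, (2 : ℤ) ∣ qf (act A 1 n) - qf n) → 2 < A.trace →
    ∃ B : Lat 1 ≃ₗ[ℤ] Lat 1, Cat B A.trace ∧ ∀ n, B n = act A 1 n

/-- LUA. `B^(k+1) = u_{k+1} B - u_k`. Induction with `ch`. -/
def LUA_stmt : Prop :=
  ∀ (B : Lat 1 ≃ₗ[ℤ] Lat 1) (t : ℤ), Cat B t → ∀ (k : ℕ) (n : Lat 1),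
    pw B ((k + 1 : ℕ) : ℤ) n = lu t (k + 1) • B n - lu t k • n

/-- LUQ. `u_{k+1}² - t u_{k+1} u_k + u_k² = 1`. -/
def LUQ_stmt : Prop :=
  ∀ (t : ℤ) (k : ℕ), lu t (k + 1) ^ 2 - t * lu t (k + 1) * lu t k + lu t k ^ 2 = 1

/-- LUP. The Lucas sequence is nonnegative and strictly increasing. -/
def LUP_stmt : Prop :=
  ∀ t : ℤ, 2 < t → ∀ k : ℕ, 0 ≤ lu t k ∧ lu t k < lu t (k + 1)

/-- LUL. Facts on `λ = lam t`. `u_{k+1} λ⁻¹ = u_k + λ^{-(k+1)}` by induction (equivalently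
`u_{k+1} = λ u_k + λ^{-k}`); the upper bound from `u_{k+1} (λ - λ⁻¹) = λ^{k+1} - λ^{-(k+1)}` and
`λ ≥ 2`. For the integrality `λ^e + λ^{-e}` satisfies the recursion with trace `t`. -/
def LUL_stmt : Prop :=
  ∀ t : ℤ, 2 < t → (2 < lam t ∧ lam t + (lam t)⁻¹ = t ∧ (4 ≤ t → 37 / 10 < lam t)) ∧
    (∀ k : ℕ, (lam t)⁻¹ * (lu t (k + 1) : ℝ) = lu t k + ((lam t)⁻¹) ^ (k + 1)) ∧
    (∀ k : ℕ, (lam t) ^ k ≤ (lu t (k + 1) : ℝ) ∧ (lu t (k + 1) : ℝ) ≤ 2 * (lam t) ^ k) ∧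
    (∀ k : ℕ, ∃ v : ℤ, (lam t) ^ k + ((lam t)⁻¹) ^ k = v)

/-- DBL. `B^k - B^(-k) = u_k (B - B⁻¹) = 2 u_k (B - t/2)`. Induction or LUA for `B` and for
`B⁻¹ = t - B` (which is also a `Cat` with the same `t`); `t` is even. -/
def DBL_stmt : Prop :=
  ∀ (B : Lat 1 ≃ₗ[ℤ] Lat 1) (t : ℤ), Cat B t → ∀ (k : ℕ) (n : Lat 1), ∃ z : Lat 1,
    pw B (k : ℤ) n - pw B (-(k : ℤ)) n = (2 * lu t k) • z

/-- PER. For `N = u_k` the operators `T(x + B^(2k) n)` and `T(x + n)` are equal: by DBL (for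
`B^k n`) `B^(2k) n = n + 2 N z`, and `T(y + 2 N z) = T(y)` by the Weyl relation and the period
`CON1_per` (Pool/Agent/helper46/CM/CON1.lean; also `CON1_mul`). -/
def PER_stmt : Prop :=
  ∀ (B : Lat 1 ≃ₗ[ℤ] Lat 1) (t : ℤ), Cat B t → ∀ (k N : ℕ) [NeZero N], (N : ℤ) = lu t k →
    ∀ (x n : Lat 1) (v : St 1 N), TT (x + pw B ((2 * k : ℕ) : ℤ) n) v = TT (x + n) v

/-- NRM. Norm bound for all integer powers: LUA, LUL for `B` and for `B⁻¹ = t - B`. -/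
def NRM_stmt : Prop :=
  ∀ (B : Lat 1 ≃ₗ[ℤ] Lat 1) (t : ℤ), Cat B t → ∃ C : ℝ, 1 ≤ C ∧ ∀ (e : ℤ) (n : Lat 1),
    ‖pw B e n‖ ≤ C * (lam t) ^ e.natAbs * ‖n‖

/-- OMB. `|ω(m, n)| ≤ 2 ‖m‖ ‖n‖`. -/
def OMB_stmt : Prop :=
  ∀ m n : Lat 1, |(omega m n : ℝ)| ≤ 2 * ‖m‖ * ‖n‖

/-- BET. `β(n, B^e m) = λ^e β(n, m)` (from `ch`: `(B - λ⁻¹) B = λ (B - λ⁻¹)`), the invariance of
`hh`, and anisotropy: `ω(b, B b)` is an integral quadratic form of discriminant `t² - 4`, which is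
not a square, so it vanishes only for `b = 0`; also `β(b, b) = ω(b, B b)`. -/
def BET_stmt : Prop :=
  ∀ (B : Lat 1 ≃ₗ[ℤ] Lat 1) (t : ℤ), Cat B t →
    (∀ (e : ℤ) (n m : Lat 1), beta B t n (pw B e m) = (lam t) ^ e * beta B t n m) ∧
    (∀ (e : ℤ) (x y : PP), hh B t (pw B e x.1, pw B e x.2) (pw B e y.1, pw B e y.2) =
      hh B t x y) ∧
    (∀ b : Lat 1, beta B t b b = omega b (B b)) ∧
    (∀ b : Lat 1, b ≠ 0 → omega b (B b) ≠ 0)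

/-! ## B: uniqueness -/

/-- QF0. The form `z² + t z y + y²` is anisotropic: `t² - 4` is not a square for `t > 2`
(`(t-1)² < t² - 4 < t²`). -/
def QF0_stmt : Prop :=
  ∀ t : ℤ, 2 < t → ∀ z y : ℤ, z ^ 2 + t * z * y + y ^ 2 = 0 → z = 0 ∧ y = 0

/-- UN1. Put `g = z² + t z y + y²`. Then `N² g = w² + (t N - 2 p) w y + y²` (use `N z = w - p y` and
the relation between `N` and `p`), `0 ≤ t N - 2 p ≤ t N`, so `|N² g| ≤ 2 N/(4t) + t N · N/(4t) < N²`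
and `g = 0`; QF0. -/
def UN1_stmt : Prop :=
  ∀ t : ℤ, 2 < t → ∀ N p w y z : ℤ, 0 < N → 0 ≤ p → p ≤ N → N ^ 2 - t * N * p + p ^ 2 = 1 →
    w = p * y + N * z → 4 * t * w ^ 2 ≤ N → 4 * t * y ^ 2 ≤ N → w = 0 ∧ y = 0

/-- GEO. Centered sums: with `c = (s (J-1)) / 2` the exponents `s j - c` have absolute values at
most `M = (s (J-1) + 1) / 2`, and `Σ_j λ^|s j - c| ≤ 4 λ^M` (two geometric series, `λ ≥ 2`); then
square and use `2 M ≤ s (J-1) + 1`. NRM for `‖B^e n‖`. -/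
def GEO_stmt : Prop :=
  ∀ (B : Lat 1 ≃ₗ[ℤ] Lat 1) (t : ℤ), Cat B t → ∃ C : ℝ, 1 ≤ C ∧ ∀ s J : ℕ, 1 ≤ s → 1 ≤ J →
    ∃ c : ℤ, ∀ (R : ℝ) (n : ℕ → Lat 1), 0 ≤ R → (∀ j < J, ‖n j‖ ≤ R) →
      ‖pw B (-c) (∑ j ∈ Finset.range J, pw B ((s * j : ℕ) : ℤ) (n j))‖ ^ 2 ≤
        C * R ^ 2 * (lam t) ^ (s * (J - 1) + 1)

/-- LACL. Lacunarity in the lattice. Fix `b ≠ 0` and put `f(n) = β(b, n)` (so
`f(B^e n) = λ^e f(n)` by BET) and `f'(n) = ω(b, B n) - λ ω(b, n)`. Then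
`f(n) f'(n) = x² - t x y + y²` with the integers `x = ω(b, B n)`, `y = ω(b, n)`, which is a nonzero
integer for `n ≠ 0` (QF0; `x = y = 0` implies `n = 0` since `b` and `B⁻¹ b` are independent: the
form `ω(b, B b)` is not zero by BET). As `|f'(n)| ≤ K ‖n‖` and `|f(n)| ≤ K ‖n‖`, we get
`|f(n)| ≥ 1/(K R)` for `0 < ‖n‖ ≤ R`. If `j` is the largest index with `n j ≠ 0` then
`λ^(s j)/(K R) ≤ Σ_{i<j} λ^(s i) K R ≤ 2 K R λ^(s (j-1))`, a contradiction if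
`λ^s > 2 K² R²`. (If `j = 0`: `n 0 = 0` directly.) -/
def LACL_stmt : Prop :=
  ∀ (B : Lat 1 ≃ₗ[ℤ] Lat 1) (t : ℤ), Cat B t → ∃ C : ℝ, 1 ≤ C ∧ ∀ (s J : ℕ) (R : ℝ), 1 ≤ s →
    0 ≤ R → C * (R ^ 2 + 1) ≤ (lam t) ^ s → ∀ n : ℕ → Lat 1, (∀ j < J, ‖n j‖ ≤ R) →
    ∑ j ∈ Finset.range J, pw B ((s * j : ℕ) : ℤ) (n j) = 0 → ∀ j < J, n j = 0

/-- UNQ. Uniqueness modulo `N = u_(s J)`. Write `g j = (n_j, m_j)`, `S = Σ B^(s j) n_j`,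
`Y = Σ B^(s j) m_j`; the sum of the sites is `B^r (S + B^k Y)`, `k = s J`. Divisibility by `N` is
preserved by all powers of `B`, so with `c` of GEO, `w = B^(-c) S`, `y = B^(-c) Y` we get that
`w + B^k y` is divisible by `N`; by LUA `B^k y = u_k B y - u_{k-1} y`, so in each of the two
coordinates `w_i = u_{k-1} y_i + N z_i`. By GEO `‖w‖², ‖y‖² ≤ C R² λ^(s(J-1)+1) ≤ N / (4 t)`, as
`N ≥ λ^(s J - 1)` and `λ^s` is large. UN1 (with LUQ, LUP) gives `w = y = 0`, so `S = Y = 0`, and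
LACL gives `n_j = m_j = 0`. -/
def UNQ_stmt : Prop :=
  ∀ (B : Lat 1 ≃ₗ[ℤ] Lat 1) (t : ℤ), Cat B t → ∃ C : ℝ, 1 ≤ C ∧ ∀ (s J r N : ℕ) (R : ℝ), 1 ≤ s →
    1 ≤ J → 0 ≤ R → (N : ℤ) = lu t (s * J) → C * (R ^ 2 + 1) ≤ (lam t) ^ s →
    ∀ g : ℕ → PP, (∀ j < J, ‖g j‖ ≤ R) →
    Dv N (∑ j ∈ Finset.range J, site B s (s * J) r j (g j)) → ∀ j < J, g j = 0

/-! ## C: phases -/

/-- PH. Phases between different sites. With `τ = s (j - i)`, `k = s J`, `0 < τ < k`, the power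
`B^(s i + r)` cancels (`pw_om`) and `ω(B^τ (n + B^k m), n' + B^k m')` is the sum of
`ω(B^τ n, n')`, `ω(B^τ m, m')` (both `O(λ^τ)`, so `O(λ^(τ-k))` after division by `2N`), of
`ω(B^τ n, B^k m') = ω(n, B^(k-τ) m')`, which is `O(λ^(k-τ))`, and of
`ω(B^(τ+k) m, n')`, where by DBL (for `B^τ m`) `B^(τ+k) m = B^(τ-k) m + 2 N z`, so that it is
congruent modulo `2N` to `ω(B^(τ-k) m, n') = O(λ^(k-τ))`. Use NRM, OMB, `N ≥ λ^(k-1)` (LUL). -/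
def PH_stmt : Prop :=
  ∀ (B : Lat 1 ≃ₗ[ℤ] Lat 1) (t : ℤ), Cat B t → ∃ C : ℝ, 1 ≤ C ∧
    ∀ (s J r i j N : ℕ) (x y : PP), 1 ≤ s → i < j → j < J → (N : ℤ) = lu t (s * J) →
    ∃ z : ℤ, |hN N (site B s (s * J) r j x) (site B s (s * J) r i y) - z| ≤
      C * ‖x‖ * ‖y‖ * (((lam t)⁻¹) ^ (s * (j - i)) + ((lam t)⁻¹) ^ (s * (J - (j - i))))

/-- PH0. Phases inside a site: `ω(n + B^k m, n' + B^k m') = ω(n,n') + ω(m,m') + ω(n, B^k m') -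
ω(n', B^k m)` and `ω(n, B^k m)/N = ω(n, B m) - (u_{k-1}/u_k) ω(n, m)` (LUA), where
`λ⁻¹ - u_{k-1}/u_k = λ^{-k}/u_k` (LUL). -/
def PH0_stmt : Prop :=
  ∀ (B : Lat 1 ≃ₗ[ℤ] Lat 1) (t : ℤ), Cat B t → ∃ C : ℝ, 1 ≤ C ∧
    ∀ (s k r j N : ℕ) (x y : PP), 1 ≤ k → (N : ℤ) = lu t k →
    |hN N (site B s k r j x) (site B s k r j y) - hh B t x y| ≤ C * ‖x‖ * ‖y‖ / N

/-! ## D: abstract block states -/

/-- SUPP. Support of the block states. Induction on `J`. -/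
def SUPP_stmt : Prop :=
  ∀ (Γ P : Type) [AddCommGroup Γ] [AddCommGroup P] (h : Γ → Γ → ℝ) (ι : ℕ → (P →+ Γ))
    (S : Finset P) (G : P → P → ℂ) (E0 : Γ → ℂ) (Z : AddSubgroup Γ), (∀ z, z ∉ Z → E0 z = 0) →
    ∀ (J : ℕ) (z : Γ), iterE h ι S G E0 J z ≠ 0 →
    ∃ g : ℕ → P, (∀ j < J, ∃ x ∈ S, ∃ y ∈ S, g j = x - y) ∧
      z - ∑ j ∈ Finset.range J, ι j (g j) ∈ Z

/-- EV. Evaluation of the block states. Induction on the number of blocks `j ≤ J`: for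
`z = v + ι_j(u_j)`, `v = Σ_{i<j} ι_i(u_i)`, in
`E_{j+1}(z) = Σ_{x,y} G(x,y) ee(-h(ιx,z) - h(ιy,z) - h(ιx,ιy)) E_j(v + ι_j(u_j + y - x))` only the
terms with `u_j + y - x = 0` survive: by SUPP a nonzero term gives `g` with
`Σ_{i<j} ι_i(u_i - g_i) + ι_j(u_j + y - x) ∈ Z`, so uniqueness (with zeros after `j`) applies. For
`y = x - u_j` the phase is `h(ιu,v) - 2h(ιx,v) - h(ιx,ιu)`. Checked numerically. -/
def EV_stmt : Prop :=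
  ∀ (Γ P : Type) [AddCommGroup Γ] [AddCommGroup P] (h : Γ → Γ → ℝ), Bil h →
    ∀ (ι : ℕ → (P →+ Γ)) (S : Finset P) (G : P → P → ℂ) (E0 : Γ → ℂ) (Z : AddSubgroup Γ),
    (∀ z, z ∉ Z → E0 z = 0) → E0 0 = 1 → ∀ (D : Set P), (0 : P) ∈ D → ∀ J : ℕ,
    (∀ g : ℕ → P, (∀ j < J, g j ∈ D) → ∑ j ∈ Finset.range J, ι j (g j) ∈ Z →
      ∀ j < J, g j = 0) →
    ∀ u : ℕ → P, (∀ j < J, ∀ x ∈ S, ∀ y ∈ S, u j + y - x ∈ D) →
    iterE h ι S G E0 J (∑ i ∈ Finset.range J, ι i (u i)) =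
      ∏ j ∈ Finset.range J, fac h (ι j) S G (u j) (∑ i ∈ Finset.range j, ι i (u i))

/-- PDS. A block step preserves positive definiteness: with `G(x,y) = Σ_a conj(d_a x) d_a(y)` the
quadratic form of the step at `(z_p), (c_p)` is the sum over `a` of the quadratic forms of `E` at
the family `z_p + ι x` (indexed by pairs `(p, x)`, `x ∈ S`; reindex by `Fin`) with coefficients
`c_p d_a(x) ee(h(z_p, ιx))`. -/
def PDS_stmt : Prop :=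
  ∀ (Γ P : Type) [AddCommGroup Γ] [AddCommGroup P] (h : Γ → Γ → ℝ), Bil h →
    ∀ (ι : P →+ Γ) (S : Finset P) (G : P → P → ℂ) (E : Γ → ℂ), PD h E → Gram S G →
    PD h (stepE h ι S G E)

/-- GRM. A Gram matrix from a positive definite function: `Φ` at the points `-x`, `x ∈ S`, and
`Matrix.posSemidef_iff_eq_conjTranspose_mul_self` (every positive semidefinite matrix is
`Dᴴ D`). -/
def GRM_stmt : Prop :=
  ∀ (P : Type) [AddCommGroup P] (h : P → P → ℝ), Bil h → ∀ Φ : P → ℂ, PD h Φ →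
    ∀ (S : Finset P) (c : ℝ), 0 ≤ c → Gram S fun x y => (c : ℂ) * ee (-(h x y)) * Φ (x - y)

/-- PDL. Pointwise limits. -/
def PDL_stmt : Prop :=
  ∀ (Γ : Type) [AddCommGroup Γ] (hj : ℕ → Γ → Γ → ℝ) (h : Γ → Γ → ℝ) (Ej : ℕ → Γ → ℂ)
    (E : Γ → ℂ), (∀ x y, Tendsto (fun j => hj j x y) atTop (𝓝 (h x y))) →
    (∀ x, Tendsto (fun j => Ej j x) atTop (𝓝 (E x))) → (∀ j, PD (hj j) (Ej j)) → PD h E

/-- PDB. Elementary consequences of positive definiteness (families `0, x`). -/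
def PDB_stmt : Prop :=
  ∀ (Γ : Type) [AddCommGroup Γ] (h : Γ → Γ → ℝ), Bil h → ∀ E : Γ → ℂ, PD h E → E 0 = 1 →
    (∀ x, ‖E x‖ ≤ 1) ∧ ∀ x, E (-x) = conj (E x)

/-! ## E: vectors -/

/-- REPA. The adjoint of `T x` is `T (-x)`. `T(-x) T(x) = 1` and `T x` preserves the inner
product (a linear map preserving the norm, `LinearMap.isometryOfNorm`-style or polarization). -/
def REPA_stmt : Prop :=
  ∀ (Γ : Type) [AddCommGroup Γ] (H : Type) [NormedAddCommGroup H] [InnerProductSpace ℂ H]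
    (h : Γ → Γ → ℝ), Bil h → ∀ T : Γ → (H →ₗ[ℂ] H), Rep h T → ∀ (x : Γ) (v w : H),
    inner ℂ (T x v) w = inner ℂ v (T (-x) w)

/-- VST. A block step preserves `IsVec`: new vectors `Σ_{x∈S} d_a(x) T(ιx) w_l`. REPA. -/
def VST_stmt : Prop :=
  ∀ (Γ P : Type) [AddCommGroup Γ] [AddCommGroup P] (H : Type) [NormedAddCommGroup H]
    [InnerProductSpace ℂ H] (h : Γ → Γ → ℝ), Bil h → ∀ T : Γ → (H →ₗ[ℂ] H), Rep h T →
    ∀ (ι : P →+ Γ) (S : Finset P) (G : P → P → ℂ) (E : Γ → ℂ), IsVec T E → Gram S G →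
    IsVec T (stepE h ι S G E)

/-- REPN. The operators `TT` represent the Weyl relations of `hN N` (`CON1_mul`, `CON1_zero`,
`CON1_norm`). -/
def REPN_stmt : Prop :=
  ∀ (N : ℕ) [NeZero N], Rep (hN N) (TT (g := 1) (N := N))

/-- TR. The normalised trace: vectors `e_x / √N`. The diagonal entries of `TT z` vanish unless
`N ∣ z (inl 0)`, and then the trace is a multiple of `Σ_x stdAddChar (z (inr 0) x)`, which vanishes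
unless `N ∣ z (inr 0)`. -/
def TR_stmt : Prop :=
  ∀ (N : ℕ) [NeZero N], ∃ E0 : Lat 1 → ℂ, IsVec (TT (g := 1) (N := N)) E0 ∧ E0 0 = 1 ∧
    ∀ z, ¬ Dv N z → E0 z = 0

/-- EIG. Extraction of an eigenvector. `Q = Σ S_i† S_i` is symmetric and commutes with `U` (take
adjoints in `S_i U = U S_i`); its smallest eigenvalue is at most `Σ_l ⟨w_l, Q w_l⟩ ≤ ε`
(`LinearMap.IsSymmetric.hasEigenvalue_iInf_of_finiteDimensional`), the eigenspace is invariant under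
`U`, so it contains an eigenvector of `U`. -/
def EIG_stmt : Prop :=
  ∀ (H : Type) [NormedAddCommGroup H] [InnerProductSpace ℂ H] [FiniteDimensional ℂ H]
    (U : H ≃ₗᵢ[ℂ] H) (m : ℕ) (S : Fin m → (H →ₗ[ℂ] H)), (∀ i v, S i (U v) = U (S i v)) →
    ∀ (p : ℕ) (w : Fin p → H), ∑ l, ‖w l‖ ^ 2 = 1 → ∀ ε : ℝ,
    ∑ l, ∑ i, ‖S i (w l)‖ ^ 2 ≤ ε → ∃ (ψ : H) (c : ℂ), ‖ψ‖ = 1 ∧ U ψ = c • ψ ∧
      ∑ i, ‖S i ψ‖ ^ 2 ≤ ε

/-- VAR. Variance of the mean: expand `Σ_l ‖(1/n) Σ_t (T_t - c) w_l‖²`, `n = 2 s J`, as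
`(1/n²) Σ_{t,t'} Σ_l ⟨(T_t - c) w_l, (T_t' - c) w_l⟩`; every term is at most `4` in absolute value,
and those with `t = e s J + s j + r`, `t' = e' s J + s j' + r'`, `j ≠ j'`, `r, r' < p` are at most
`ε`; the others are a fraction at most `2 (s-p)/s + 1/J` of the `n²` pairs. -/
def VAR_stmt : Prop :=
  ∀ (H : Type) [NormedAddCommGroup H] [InnerProductSpace ℂ H] (T : ℕ → (H →ₗ[ℂ] H)),
    (∀ i v, ‖T i v‖ = ‖v‖) → ∀ (m : ℕ) (w : Fin m → H), ∑ l, ‖w l‖ ^ 2 = 1 →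
    ∀ c : ℂ, ‖c‖ ≤ 1 → ∀ s J p : ℕ, 1 ≤ s → 1 ≤ J → p ≤ s → ∀ ε : ℝ, 0 ≤ ε →
    (∀ e e' j j' r r' : ℕ, e < 2 → e' < 2 → j < J → j' < J → j ≠ j' → r < p → r' < p →
      ‖∑ l, inner ℂ (T (e * (s * J) + s * j + r) (w l) - c • w l)
        (T (e' * (s * J) + s * j' + r') (w l) - c • w l)‖ ≤ ε) →
    ∑ l, ‖((2 * (s * J) : ℕ) : ℂ)⁻¹ • (∑ i ∈ Finset.range (2 * (s * J)), T i (w l)) -
      c • w l‖ ^ 2 ≤ ε + 4 * (2 * ((s : ℝ) - p) / s + 1 / J)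

/-- WIG. From vectors to a Wigner transform. `EX` (Pool/Agent/helper58/CM/EX.lean) gives a
quantization `U`; the operators `S_n = (1/2k) Σ_{i<2k} TT(B^i n) - c_n` commute with `U` (Egorov
property; `TT(B^(2k) n) = TT(n)` by PER); EIG gives an eigenvector `ψ`; for it
`⟨ψ, TT(B^i n) ψ⟩ = ⟨ψ, TT(n) ψ⟩`, so `|⟨ψ, TT(n) ψ⟩ - c_n| = |⟨ψ, S_n ψ⟩| ≤ ‖S_n ψ‖ ≤ ε`. -/
def WIG_stmt : Prop :=
  ∀ A : Matrix (Fin 1 ⊕ Fin 1) (Fin 1 ⊕ Fin 1) ℤ, A ∈ Matrix.symplecticGroup (Fin 1) ℤ →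
    (∀ n : Lat 1, (2 : ℤ) ∣ qf (act A 1 n) - qf n) → ∀ (B : Lat 1 ≃ₗ[ℤ] Lat 1) (t : ℤ), Cat B t →
    (∀ n, B n = act A 1 n) → ∀ (k N : ℕ) [NeZero N], 1 ≤ k → (N : ℤ) = lu t k →
    ∀ (Fs : Finset (Lat 1)) (c : Lat 1 → ℂ) (ε : ℝ), 0 ≤ ε → ∀ (m : ℕ) (w : Fin m → St 1 N),
    ∑ l, ‖w l‖ ^ 2 = 1 →
    ∑ n ∈ Fs, ∑ l, ‖((2 * k : ℕ) : ℂ)⁻¹ • (∑ i ∈ Finset.range (2 * k),
      TT (pw B (i : ℤ) n) (w l)) - c n • w l‖ ^ 2 ≤ ε ^ 2 →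
    ∃ W ∈ WignerSet (TT (N := N)) (act A 1), ∀ n ∈ Fs, ‖W n - c n‖ ≤ ε

/-! ## F: estimates and sufficiency -/

/-- BOX. The box: membership, cardinality, overlap
(`Π (2R+1-|u_i|) ≥ (2R+1)⁴ (1 - 4‖u‖/(2R+1))`; trivial if `2‖u‖ > R`). -/
def BOX_stmt : Prop :=
  (∀ (R : ℕ) (x : PP), x ∈ box R ↔ ‖x‖ ≤ R) ∧ (∀ R : ℕ, (box R).card = (2 * R + 1) ^ 4) ∧
  ∀ (R : ℕ) (u : PP), 1 ≤ R →
    (1 - 2 * ‖u‖ / R) * ((box R).card : ℝ) ≤ (((box R).filter fun x => x - u ∈ box R).card : ℝ)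

/-- FACE. Estimate of one factor. For `y = x - u`:
`GΦ(x, x-u) = |box|⁻¹ ee(hh(x,u)) Φ(u)`, so the factor is
`Φ(u) |box|⁻¹ Σ_{x, x-u ∈ box} ee(h(ιu,v) + hh(x,u) - h(ιx,ιu) - 2h(ιx,v))`, every phase being
within `2π(3θ + θ0)` of `1` (`norm_ee_sub_one`), and the number of terms is at least
`(1 - 2‖u‖/R) |box|` (BOX). `|Φ| ≤ 1` by PDB. -/
def FACE_stmt : Prop :=
  ∀ (B : Lat 1 ≃ₗ[ℤ] Lat 1) (t : ℤ) (Φ : PP → ℂ), PD (hh B t) Φ → Φ 0 = 1 →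
    ∀ (Γ : Type) [AddCommGroup Γ] (h : Γ → Γ → ℝ), Bil h → ∀ (ι : PP →+ Γ) (R : ℕ), 1 ≤ R →
    ∀ u ∈ box R, ∀ (v : Γ) (θ0 θ : ℝ),
    (∀ x ∈ box R, |h (ι x) (ι u) - hh B t x u| ≤ θ0) →
    (∀ x ∈ box R, ∃ z : ℤ, |h (ι x) v - z| ≤ θ) →
    ‖fac h ι (box R) (GΦ B t Φ R) u v - Φ u‖ ≤ 2 * ‖u‖ / R + 2 * Real.pi * (θ0 + 3 * θ) ∧
    ‖fac h ι (box R) (GΦ B t Φ R) u v‖ ≤ 1

/-- PRD. Products of numbers of the unit disc. -/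
def PRD_stmt : Prop :=
  ∀ (s : Finset ℕ) (a b : ℕ → ℂ), (∀ i ∈ s, ‖a i‖ ≤ 1) → (∀ i ∈ s, ‖b i‖ ≤ 1) →
    ‖∏ i ∈ s, a i - ∏ i ∈ s, b i‖ ≤ ∑ i ∈ s, ‖a i - b i‖

/-- PAIR. Evaluation at two sites. EV with `Z` = multiples of `N`, `D = {‖g‖ ≤ 3R}` (uniqueness UNQ
for `3R`), `u_i = u`, `u_i' = u'`, all others `0`; the `j`-th factor is estimated by FACE with
`θ0 = C R²/N` (PH0; for `u_j = 0` take `θ0 = 0`) and `θ` = sum over the (at most two) sites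
`i'' < j` in the support of `C R² (λ^(-s(j-i'')) + λ^(-s(J-(j-i''))))` (PH); PRD; the sum over `j`
of the `θ` is at most `8 C R² λ^(-s)`, and `1/N ≤ λ^(-s)` as `N ≥ λ^(s J - 1)`, `J ≥ 2`. -/
def PAIR_stmt : Prop :=
  ∀ (B : Lat 1 ≃ₗ[ℤ] Lat 1) (t : ℤ), Cat B t → ∃ C : ℝ, 1 ≤ C ∧ ∀ Φ : PP → ℂ,
    PD (hh B t) Φ → Φ 0 = 1 → ∀ (s J r R N : ℕ) (E0 : Lat 1 → ℂ), 1 ≤ s → 2 ≤ J → 1 ≤ R →
    (N : ℤ) = lu t (s * J) → C * (R : ℝ) ^ 2 ≤ (lam t) ^ s → E0 0 = 1 →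
    (∀ z, ¬ Dv N z → E0 z = 0) → ∀ i i' : ℕ, i < i' → i' < J → ∀ u u' : PP, ‖u‖ ≤ R → ‖u'‖ ≤ R →
    ‖iterE (hN N) (site B s (s * J) r) (box R) (GΦ B t Φ R) E0 J
      (site B s (s * J) r i u + site B s (s * J) r i' u') - Φ u * Φ u'‖ ≤
      C * ((‖u‖ + ‖u'‖) / R + (R : ℝ) ^ 2 * ((lam t)⁻¹) ^ s)

/-- COV. Covariances at two different sites `i ≠ i'`. Take the vectors of
`iterE … E0 J` (TR, VST, GRM, REPN, REPA); `Σ ‖w_l‖² = E(0) = 1` (EV with `u = 0` as in PAIR, or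
PAIR with `u = u' = 0` and positivity: `E(0)` is real... use EV: every factor is `1`). With
`x = site i u`, `x' = site i' u'`, `c = Φ(u)`, `c' = Φ(u')`, the sum is
`ee(-h(x,x')) E(x' - x) - c' conj(E(x)) - conj(c) E(x') + conj(c) c'`, and
`E(x' - x) ≈ Φ(u') Φ(-u) = c' conj(c)`, `E(x) ≈ c`, `E(x') ≈ c'` by PAIR (use `0` at another site
for the single ones), the phase is close to `1` by PH. -/
def COV_stmt : Prop :=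
  ∀ (B : Lat 1 ≃ₗ[ℤ] Lat 1) (t : ℤ), Cat B t → ∃ C : ℝ, 1 ≤ C ∧ ∀ Φ : PP → ℂ,
    PD (hh B t) Φ → Φ 0 = 1 → ∀ (s J r R N : ℕ) [NeZero N], 1 ≤ s → 2 ≤ J → 1 ≤ R →
    (N : ℤ) = lu t (s * J) → C * (R : ℝ) ^ 2 ≤ (lam t) ^ s →
    ∃ (m : ℕ) (w : Fin m → St 1 N), ∑ l, ‖w l‖ ^ 2 = 1 ∧
    ∀ i i' : ℕ, i < J → i' < J → i ≠ i' → ∀ u u' : PP, ‖u‖ ≤ R → ‖u'‖ ≤ R →
    ‖∑ l, inner ℂ (TT (site B s (s * J) r i u) (w l) - Φ u • w l)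
      (TT (site B s (s * J) r i' u') (w l) - Φ u' • w l)‖ ≤
      C * ((‖u‖ + ‖u'‖) / R + (R : ℝ) ^ 2 * ((lam t)⁻¹) ^ s)

/-- TIM. Covariances at times. COV with `r = r0`: for `e = 0` the frequency
`B^(s j + r) n` is `site j (B^(r - r0) n, 0)`, for `e = 1` the frequency `B^(s J + s j + r) n` is
`site j (0, B^(r - r0) n)`; `Φ` takes the value `Φ(n, 0)` there by invariance and exchange; norms by
NRM. -/
def TIM_stmt : Prop :=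
  ∀ (B : Lat 1 ≃ₗ[ℤ] Lat 1) (t : ℤ), Cat B t → ∃ C : ℝ, 1 ≤ C ∧ ∀ Φ : PP → ℂ, Inv B t Φ →
    ∀ (s J r0 R N : ℕ) [NeZero N], 2 * r0 + 1 ≤ s → 2 ≤ J → 1 ≤ R → (N : ℤ) = lu t (s * J) →
    C * (R : ℝ) ^ 2 ≤ (lam t) ^ s →
    ∃ (m : ℕ) (w : Fin m → St 1 N), ∑ l, ‖w l‖ ^ 2 = 1 ∧
    ∀ n : Lat 1, C * (lam t) ^ r0 * ‖n‖ ≤ R → ∀ e e' j j' r r' : ℕ, e < 2 → e' < 2 → j < J →
    j' < J → j ≠ j' → r < 2 * r0 + 1 → r' < 2 * r0 + 1 →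
    ‖∑ l, inner ℂ (TT (pw B ((e * (s * J) + s * j + r : ℕ) : ℤ) n) (w l) - Φ (n, 0) • w l)
      (TT (pw B ((e' * (s * J) + s * j' + r' : ℕ) : ℤ) n) (w l) - Φ (n, 0) • w l)‖ ≤
      C * ((lam t) ^ r0 * ‖n‖ / R + (R : ℝ) ^ 2 * ((lam t)⁻¹) ^ s)

/-- PAR. Choice of the parameters. Put `s = 2 r0 + 1 + a`. For given `δ`, `M` choose `η` small,
`R = ⌈C (M+1) λ^r0 / η⌉`, so `R ≤ K λ^r0`, then `a` so large that `C K² λ^(-1-a)` is small (this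
gives `C R² ≤ λ^s` and `C R² λ^(-s)` small), then `r0` large (`a/s` small), then `J` large. VAR with
`p = 2 r0 + 1`, `T i = TT (pw B i n)`. `N = u_(s J)` is positive (LUP). -/
def PAR_stmt : Prop :=
  ∀ (B : Lat 1 ≃ₗ[ℤ] Lat 1) (t : ℤ), Cat B t → ∀ Φ : PP → ℂ, Inv B t Φ →
    ∀ (M K : ℕ) (δ : ℝ), 0 < δ → ∃ (k N : ℕ) (_ : NeZero N) (m : ℕ) (w : Fin m → St 1 N),
    K ≤ k ∧ 1 ≤ k ∧ (N : ℤ) = lu t k ∧ ∑ l, ‖w l‖ ^ 2 = 1 ∧ ∀ n : Lat 1, ‖n‖ ≤ M →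
    ∑ l, ‖((2 * k : ℕ) : ℂ)⁻¹ • (∑ i ∈ Finset.range (2 * k), TT (pw B (i : ℤ) n) (w l)) -
      Φ (n, 0) • w l‖ ^ 2 ≤ δ

/-- INVA. Translation between `A` and `B`. -/
def INVA_stmt : Prop :=
  ∀ (A : Matrix (Fin 1 ⊕ Fin 1) (Fin 1 ⊕ Fin 1) ℤ) (B : Lat 1 ≃ₗ[ℤ] Lat 1),
    (∀ n, B n = act A 1 n) → ∀ Φ : PP → ℂ, IsInvState A Φ ↔ Inv B A.trace Φ

/-- SUF. Sufficiency: for every `j` apply PAR with `M = K = j`, `δ` small compared with the number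
of frequencies of norm at most `j`, and WIG with `ε = 1/(j+1)`. -/
def SUF_stmt : Prop :=
  ∀ A : Matrix (Fin 1 ⊕ Fin 1) (Fin 1 ⊕ Fin 1) ℤ, A ∈ Matrix.symplecticGroup (Fin 1) ℤ →
    (∀ n : Lat 1, (2 : ℤ) ∣ qf (act A 1 n) - qf n) → 2 < A.trace → ∀ Φ : PP → ℂ,
    IsInvState A Φ → IsShortLimit A fun n => Φ (n, 0)

/-! ## G: necessity -/

/-- SUB. Subsequences on a countable set (compactness and first countability of the product, or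
diagonal). -/
def SUB_stmt : Prop :=
  ∀ (ι : Type) [Countable ι] (f : ℕ → ι → ℂ), (∀ j x, ‖f j x‖ ≤ 1) →
    ∃ (φ : ℕ → ℕ) (g : ι → ℂ), StrictMono φ ∧ ∀ x, Tendsto (fun j => f (φ j) x) atTop (𝓝 (g x))

/-- NE1. The function `Ψ(n, m) = ⟨ψ, TT(n + B^k m) ψ⟩` of an eigenvector. The matrix of PD is the
Gram matrix of the vectors `TT(x_i.1 + B^k x_i.2) ψ` (`Matrix.PosSemidef` of a Gram matrix; REPN,
REPA, `ee`-phase `-h(X,Y)` from `T(-X) T(Y)`). Invariance: `U ψ = c ψ`, `|c| = 1`, and the Egorov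
property `TT n U = U TT (act A 1 n)`. Exchange: apply `B^k` and PER. -/
def NE1_stmt : Prop :=
  ∀ (A : Matrix (Fin 1 ⊕ Fin 1) (Fin 1 ⊕ Fin 1) ℤ) (B : Lat 1 ≃ₗ[ℤ] Lat 1) (t : ℤ), Cat B t →
    (∀ n, B n = act A 1 n) → ∀ (k N : ℕ) [NeZero N], (N : ℤ) = lu t k →
    ∀ W ∈ WignerSet (TT (N := N)) (act A 1), ∃ Ψ : PP → ℂ,
    PD (fun x y => hN N (x.1 + pw B (k : ℤ) x.2) (y.1 + pw B (k : ℤ) y.2)) Ψ ∧ Ψ 0 = 1 ∧
    (∀ x, Ψ (BB B x) = Ψ x) ∧ (∀ x : PP, Ψ (x.2, x.1) = Ψ x) ∧ (∀ n, Ψ (n, 0) = W n) ∧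
    ∀ x, ‖Ψ x‖ ≤ 1

/-- NEC. Necessity: NE1, SUB (`PP` is countable), PDL; convergence of the forms by PH0 (`s = r = 0`)
and `N_j → ∞`. -/
def NEC_stmt : Prop :=
  ∀ A : Matrix (Fin 1 ⊕ Fin 1) (Fin 1 ⊕ Fin 1) ℤ, A ∈ Matrix.symplecticGroup (Fin 1) ℤ →
    (∀ n : Lat 1, (2 : ℤ) ∣ qf (act A 1 n) - qf n) → 2 < A.trace → ∀ F : Lat 1 → ℂ,
    IsShortLimit A F → ∃ Φ : PP → ℂ, IsInvState A Φ ∧ ∀ n, F n = Φ (n, 0)

/-! ## H: Bochner -/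

/-- BOC. Herglotz-Bochner theorem on `ℤ²`: the functions
`p_R(y) = |box1 R|⁻¹ Σ_{n,m ∈ box1 R} F(n - m) chr(-(n - m))(y)` are nonnegative and continuous, the
measures `p_R · volume` have total mass `1` and Fourier coefficients
`F(n) · |{m ∈ box1 R : m + n ∈ box1 R}| / |box1 R| → F(n)`; then `MEC_closed`
(Pool/Agent/helper35/CM/MEC.lean): the set of transforms of probability measures is closed in the
product topology. (`∫ chr n = 0` for `n ≠ 0`: Mathlib `UnitAddTorus.mFourier` orthonormality, or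
`ME_haar`.) Careful with the sign: positivity at the point `y` uses the family `n ∈ box1 R` with
coefficients `chr(n)(y)`. -/
def BOC_stmt : Prop :=
  ∀ F : Lat 1 → ℂ, F 0 = 1 → (∀ (m : ℕ) (x : Fin m → Lat 1),
    (Matrix.of fun i j : Fin m => F (x j - x i)).PosSemidef) → IsTransform F

/-! ## I: the example -/

/-- LAC1. Real lacunarity. Let `j` be the largest index with `γ j ≠ 0`. The lower part is at most
`2 x^(s j)/(x^s - 1) ≤ 0.16 x^(s j)`. If `q > s j`: `x^q ≥ 3.7 x^(s j)` but the sum is at most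
`2.16 x^(s j)`. If `q < s j`: `x^(s j) ≤ x^q + 0.16 x^(s j) ≤ 0.44 x^(s j)`. -/
def LAC1_stmt : Prop :=
  ∀ x : ℝ, 37 / 10 ≤ x → ∀ s J : ℕ, 2 ≤ s → ∀ γ : ℕ → ℤ, (∀ j < J, |γ j| ≤ 2) → ∀ q : ℕ,
    x ^ q = ∑ j ∈ Finset.range J, (γ j : ℝ) * x ^ (s * j) → ∃ j < J, q = s * j

/-- LAC2. The same for a difference: `x^p - x^q ≥ (1 - 1/x) x^p`; first `p = s j` for the largest
index `j` (as in LAC1), then `γ j = 1` (otherwise `|1 - γ j| x^p ≤ x^q + 0.16 x^p ≤ 0.44 x^p`), and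
LAC1 for the rest with the opposite signs. -/
def LAC2_stmt : Prop :=
  ∀ x : ℝ, 37 / 10 ≤ x → ∀ s J : ℕ, 2 ≤ s → ∀ γ : ℕ → ℤ, (∀ j < J, |γ j| ≤ 2) → ∀ p q : ℕ,
    q < p → x ^ p - x ^ q = ∑ j ∈ Finset.range J, (γ j : ℝ) * x ^ (s * j) →
    (∃ j < J, p = s * j) ∧ ∃ j < J, q = s * j

/-- LAC3. `Σ γ_j x^(s j) = 0` with `|γ_j| ≤ 3` implies `γ = 0` (`x^s ≥ 13 > 4`). -/
def LAC3_stmt : Prop :=
  ∀ x : ℝ, 37 / 10 ≤ x → ∀ s J : ℕ, 2 ≤ s → ∀ γ : ℕ → ℤ, (∀ j < J, |γ j| ≤ 3) →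
    ∑ j ∈ Finset.range J, (γ j : ℝ) * x ^ (s * j) = 0 → ∀ j < J, γ j = 0

/-- EXZ. Vanishing of the block state of the example outside the sites: SUPP with `Z = ⊥`, the first
components of the differences of elements of `blk b` are `γ b`, `|γ| ≤ 2`; apply `β(b, ·)` (BET,
`β(b,b) ≠ 0`), LAC1 and LAC2 for `x = λ` (`t ≥ 4` as `t` is even; LUL). -/
def EXZ_stmt : Prop :=
  ∀ (B : Lat 1 ≃ₗ[ℤ] Lat 1) (t : ℤ), Cat B t → ∀ b : Lat 1, b ≠ 0 → ∀ s J : ℕ, 2 ≤ s →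
    (∀ p : ℕ, (¬ ∃ j < J, p = s * j) → EX0 B t b s J (pw B (p : ℤ) b, 0) = 0) ∧
    ∀ p q : ℕ, q < p → ¬ ((∃ j < J, p = s * j) ∧ ∃ j < J, q = s * j) →
      EX0 B t b s J (pw B (p : ℤ) b - pw B (q : ℤ) b, 0) = 0

/-- EXF. The factors of the example, for `u = (γ b, 0)`, `γ ∈ {-1, 0, 1}` and
`v = (w, 0)` with `β(b, w) = ρ · q`... precisely: for `v = (Σ_{i<j} B^(s i) γ_i b, 0)`. For
`γ_j = ±1` the factor is `1/2` (the elements `x` with `x, x - u ∈ blk b` are `0` and `u`, all phases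
vanish since first components do not interact). For `γ_j = 0` it is
`Σ_x wt(x)² ee(-2 hh(ι_j x, v)) = 1/2 + 1/4 + (1/4) cos(2π θ)`, `θ = Σ_{i<j} γ_i q λ^(s(j-i))`,
`q = ω(b, B b)`, and modulo integers `λ^m = -λ^(-m)` (LUL), so `cos(2πθ)` is as stated. -/
def EXF_stmt : Prop :=
  ∀ (B : Lat 1 ≃ₗ[ℤ] Lat 1) (t : ℤ), Cat B t → ∀ b : Lat 1, b ≠ 0 → ∀ (s j : ℕ) (γ : ℕ → ℤ),
    (∀ i, |γ i| ≤ 1) →
    fac (hh B t) (siteI B s j) (blk b) GX ((γ j • b, 0) : PP)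
      (∑ i ∈ Finset.range j, siteI B s i ((γ i • b, 0) : PP)) =
    if γ j = 0 then ((3 / 4 + 1 / 4 * Real.cos (2 * Real.pi * (omega b (B b) : ℝ) *
      ∑ i ∈ Finset.range j, (γ i : ℝ) * ((lam t)⁻¹) ^ (s * (j - i))) : ℝ) : ℂ) else 1 / 2

/-- EXE. Evaluation of the example: EV with `Z = ⊥`, `D = {(γ b, γ' b) : |γ|, |γ'| ≤ 3}`; uniqueness
by `β(b, ·)` and LAC3 for each component. Checked numerically. -/
def EXE_stmt : Prop :=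
  ∀ (B : Lat 1 ≃ₗ[ℤ] Lat 1) (t : ℤ), Cat B t → ∀ b : Lat 1, b ≠ 0 → ∀ s J : ℕ, 2 ≤ s →
    ∀ γ : ℕ → ℤ, (∀ i, |γ i| ≤ 1) →
    EX0 B t b s J (∑ i ∈ Finset.range J, siteI B s i ((γ i • b, 0) : PP)) =
    ∏ j ∈ Finset.range J, if γ j = 0 then ((3 / 4 + 1 / 4 * Real.cos (2 * Real.pi *
      (omega b (B b) : ℝ) * ∑ i ∈ Finset.range j, (γ i : ℝ) * ((lam t)⁻¹) ^ (s * (j - i))) : ℝ) : ℂ)
      else 1 / 2

/-- `κ_d = 3/4 + (1/4) cos(2π q x^(s d))`, `x = λ⁻¹`. -/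
def kap (q x : ℝ) (s d : ℕ) : ℝ := 3 / 4 + 1 / 4 * Real.cos (2 * Real.pi * q * x ^ (s * d))

/-- `κ'_(e,d) = 3/4 + (1/4) cos(2π q (x^(s d) - x^(s (d + e))))`. -/
def kap2 (q x : ℝ) (s e d : ℕ) : ℝ :=
  3 / 4 + 1 / 4 * Real.cos (2 * Real.pi * q * (x ^ (s * d) - x ^ (s * (d + e))))

/-- EX1. One site: EXE with `γ = 1` at `i`; the product over `j > i` of `κ_(j-i)`. -/
def EX1_stmt : Prop :=
  ∀ (B : Lat 1 ≃ₗ[ℤ] Lat 1) (t : ℤ), Cat B t → ∀ b : Lat 1, b ≠ 0 → ∀ s J i : ℕ, 2 ≤ s → i < J →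
    EX0 B t b s J (pw B ((s * i : ℕ) : ℤ) b, 0) =
      ((1 / 2 * ∏ d ∈ Finset.Icc 1 (J - 1 - i), kap (omega b (B b)) ((lam t)⁻¹) s d : ℝ) : ℂ)

/-- EX2. Two sites `i < i + e`: EXE with `γ = -1` at `i` and `γ = 1` at `i + e`. -/
def EX2_stmt : Prop :=
  ∀ (B : Lat 1 ≃ₗ[ℤ] Lat 1) (t : ℤ), Cat B t → ∀ b : Lat 1, b ≠ 0 → ∀ s J i e : ℕ, 2 ≤ s →
    1 ≤ e → i + e < J →
    EX0 B t b s J (pw B ((s * (i + e) : ℕ) : ℤ) b - pw B ((s * i : ℕ) : ℤ) b, 0) =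
      ((1 / 4 * (∏ d ∈ Finset.Icc 1 (e - 1), kap (omega b (B b)) ((lam t)⁻¹) s d) *
        ∏ d ∈ Finset.Icc 1 (J - 1 - (i + e)), kap2 (omega b (B b)) ((lam t)⁻¹) s e d : ℝ) : ℂ)

/-- KP. The infinite products. All factors are in `[1/2, 1]`, `1 - κ_d ≤ (π q x^(s d))² / 2`, so
the product converges to `P > 0`; the products of the `κ'_(e,d)`, `d ≤ m`, decrease to `Q e`, and
`|Q e - P| ≤ Σ_d |κ'_(e,d) - κ_d| ≤ Σ_d 2π |q| x^(s (d+e)) → 0`. -/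
def KP_stmt : Prop :=
  ∀ (q x : ℝ) (s : ℕ), 0 < x → x < 1 → 1 ≤ s → ∃ (P : ℝ) (Q : ℕ → ℝ), 0 < P ∧
    Tendsto (fun m => ∏ d ∈ Finset.Icc 1 m, kap q x s d) atTop (𝓝 P) ∧
    (∀ e, Tendsto (fun m => ∏ d ∈ Finset.Icc 1 m, kap2 q x s e d) atTop (𝓝 (Q e))) ∧
    Tendsto Q atTop (𝓝 P)

/-- CES. Cesàro means along the sites. In the first part the summand is zero unless `i = s j`,
`j < J`, and then it is `a (J - 1 - j)`; the mean over `s J` times tends to `L / s`. The second part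
is the same with a shift by `p` (only finitely many indices are lost). -/
def CES_stmt : Prop :=
  ∀ (s p : ℕ), 1 ≤ s → ∀ (f : ℕ → ℕ → ℂ) (a : ℕ → ℂ) (L : ℂ), Tendsto a atTop (𝓝 L) →
    (∀ J i, ‖f J i‖ ≤ 1) →
    (∀ J i, (¬ ∃ j, i + p = s * j ∧ j < J) → f J i = 0) →
    (∀ J i j, i + p = s * j → j < J → f J i = a (J - 1 - j)) →
    Tendsto (fun J : ℕ => ((s * J : ℕ) : ℂ)⁻¹ * ∑ i ∈ Finset.range (s * J), f J i) atTop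
      (𝓝 (L / s))

/-- EXM. Limits of the means at the needed points: `EXm` at `(b, 0)` and at
`(B^r' b - B^r b, 0)`, `r < r'`. For the second: the summand at time `i` is
`EX0 (B^(i+r') b - B^(i+r) b, 0)`, zero unless both `i + r`, `i + r'` are of the form `s j`, `j < J`
(EXZ), in particular it vanishes for all `i` if `s ∤ r' - r`; otherwise, with `r' - r = s e`, EX2,
CES (with `p = r'`). -/
def EXM_stmt : Prop :=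
  ∀ (B : Lat 1 ≃ₗ[ℤ] Lat 1) (t : ℤ), Cat B t → ∀ b : Lat 1, b ≠ 0 → ∀ s : ℕ, 2 ≤ s →
    ∃ (P : ℝ) (ρ : ℕ → ℝ), 0 < P ∧ Tendsto ρ atTop (𝓝 (P ^ 2 / (4 * s))) ∧
    Tendsto (fun J => EXm B t b s J (b, 0)) atTop (𝓝 ((P / (2 * s) : ℝ) : ℂ)) ∧
    ∀ r r' : ℕ, r < r' → Tendsto (fun J => EXm B t b s J (pw B (r' : ℤ) b - pw B (r : ℤ) b, 0))
      atTop (𝓝 (((if s ∣ r' - r then ρ ((r' - r) / s) else 0 : ℝ)) : ℂ))

/-- EXS. The block states of the example are invariant under the exchange: `hh` changes only by an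
integer under the exchange of both arguments (`β(m,n) + β(n,m) = 2ω(n,Bm) - t ω(n,m)`, `t` even),
and `blk b`, `wt`, `E00`, `siteI` are symmetric. Induction on `J`. -/
def EXS_stmt : Prop :=
  ∀ (B : Lat 1 ≃ₗ[ℤ] Lat 1) (t : ℤ), Cat B t → ∀ (b : Lat 1) (s J : ℕ) (x : PP),
    EX0 B t b s J (x.2, x.1) = EX0 B t b s J x

/-- EXP. Positivity and normalisation: PDS (with `d x = wt x`), `E00` is positive definite;
`EX0 0 = 1` by EXE with `γ = 0`; bound by PDB. The mean of positive definite functions composed with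
the automorphisms `B^i` (which preserve `hh`, BET) is positive definite. -/
def EXP_stmt : Prop :=
  ∀ (B : Lat 1 ≃ₗ[ℤ] Lat 1) (t : ℤ), Cat B t → ∀ b : Lat 1, b ≠ 0 → ∀ s J : ℕ, 2 ≤ s → 1 ≤ J →
    PD (hh B t) (EXm B t b s J) ∧ EXm B t b s J 0 = 1 ∧ (∀ x, ‖EXm B t b s J x‖ ≤ 1) ∧
    (∀ x : PP, EXm B t b s J (x.2, x.1) = EXm B t b s J x) ∧
    ∀ x, ‖EXm B t b s J (BB B x) - EXm B t b s J x‖ ≤ 2 / (s * J : ℕ)

/-- EXL. The limit state: SUB along `J → ∞`, PDL. -/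
def EXL_stmt : Prop :=
  ∀ (B : Lat 1 ≃ₗ[ℤ] Lat 1) (t : ℤ), Cat B t → ∀ b : Lat 1, b ≠ 0 → ∀ s : ℕ, 2 ≤ s →
    ∃ (Φ : PP → ℂ) (P : ℝ) (ρ : ℕ → ℝ), Inv B t Φ ∧ 0 < P ∧
    Tendsto ρ atTop (𝓝 (P ^ 2 / (4 * s))) ∧ Φ (b, 0) = ((P / (2 * s) : ℝ) : ℂ) ∧
    ∀ r r' : ℕ, r < r' → Φ (pw B (r' : ℤ) b - pw B (r : ℤ) b, 0) =
      (((if s ∣ r' - r then ρ ((r' - r) / s) else 0 : ℝ)) : ℂ)

/-- AVG. Quadratic means: the sum over `r, r' < l` is `l + 2 Σ_{e ≥ 1, s e < l} (l - s e) ρ(e)`, and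
divided by `l²` it tends to `L / s`. -/
def AVG_stmt : Prop :=
  ∀ (s : ℕ), 1 ≤ s → ∀ (ρ : ℕ → ℝ) (L : ℝ), Tendsto ρ atTop (𝓝 L) → ∀ F : ℕ → ℕ → ℂ,
    (∀ r, F r r = 1) → (∀ r r', F r' r = conj (F r r')) →
    (∀ r r', r < r' → F r r' = (((if s ∣ r' - r then ρ ((r' - r) / s) else 0 : ℝ)) : ℂ)) →
    Tendsto (fun l : ℕ => ((l : ℂ) ^ 2)⁻¹ * ∑ r ∈ Finset.range l, ∑ r' ∈ Finset.range l, F r r')
      atTop (𝓝 ((L / s : ℝ) : ℂ))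

/-- SNG. Singularity. `A_l = (1/l) Σ_{r<l} chr(n_r)`. In `L²(μ)`: `∫ |A_l - c|² =
(1/l²) Σ F(n_r' - n_r) - c² → 0`. In `L²(volume)`: `∫ |A_l|² = 1/l → 0` by orthogonality. Take a
subsequence along which `A_l → c` almost everywhere for `μ` and `A_l → 0` almost everywhere for the
volume (`TendstoInMeasure.exists_seq_tendsto_ae`, twice); the set where the limit is `c` has full
`μ`-measure and volume zero, as `c ≠ 0`. -/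
def SNG_stmt : Prop :=
  ∀ (μ : MeasureTheory.Measure (UnitAddTorus (Fin 1 ⊕ Fin 1))),
    MeasureTheory.IsProbabilityMeasure μ → ∀ (n : ℕ → Lat 1) (c : ℝ), c ≠ 0 →
    Function.Injective n → (∀ r, ∫ y, chr (n r) y ∂μ = c) →
    Tendsto (fun l : ℕ => ((l : ℂ) ^ 2)⁻¹ * ∑ r ∈ Finset.range l, ∑ r' ∈ Finset.range l,
      ∫ y, chr (n r' - n r) y ∂μ) atTop (𝓝 ((c ^ 2 : ℝ) : ℂ)) →
    μ.MutuallySingular MeasureTheory.volume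

/-! ## Z: assembly -/

/-- The singular limit (EXL, AVG, SNG, SUF, BOC). -/
def ZS_stmt : Prop :=
  ∀ A : Matrix (Fin 1 ⊕ Fin 1) (Fin 1 ⊕ Fin 1) ℤ, A ∈ Matrix.symplecticGroup (Fin 1) ℤ →
    (∀ n : Lat 1, (2 : ℤ) ∣ qf (act A 1 n) - qf n) → 2 < A.trace →
    ∃ (F : Lat 1 → ℂ) (μ : MeasureTheory.Measure (UnitAddTorus (Fin 1 ⊕ Fin 1))),
      MeasureTheory.IsProbabilityMeasure μ ∧ IsShortLimit A F ∧
      (∀ n, ∫ y, chr n y ∂μ = F n) ∧ μ.MutuallySingular MeasureTheory.volume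

/-- The final statement. -/
def FIN_stmt : Prop :=
  ∀ A : Matrix (Fin 1 ⊕ Fin 1) (Fin 1 ⊕ Fin 1) ℤ, A ∈ Matrix.symplecticGroup (Fin 1) ℤ →
    (∀ n : Lat 1, (2 : ℤ) ∣ qf (act A 1 n) - qf n) → 2 < A.trace →
    (∀ F : Lat 1 → ℂ, IsShortLimit A F ↔ ∃ Φ : PP → ℂ, IsInvState A Φ ∧ ∀ n, F n = Φ (n, 0)) ∧
    (∀ F : Lat 1 → ℂ, IsShortLimit A F → IsTransform F) ∧
    ∃ (F : Lat 1 → ℂ) (μ : MeasureTheory.Measure (UnitAddTorus (Fin 1 ⊕ Fin 1))),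
      MeasureTheory.IsProbabilityMeasure μ ∧ IsShortLimit A F ∧
      (∀ n, ∫ y, chr n y ∂μ = F n) ∧ μ.MutuallySingular MeasureTheory.volume

end

end Pool.Agent.QS
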