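import Pool.Agent.helper4.QS.Defs
import Pool.Agent.helper46.CM.V0

/-!
# Quantum cat maps at the shortest periods: basic lemmas (proved)
-/

open scoped BigOperators ComplexOrder

namespace Pool.Agent.QS

open Pool.Agent.helper86.CM

noncomputable section

theorem pw_apply (B : Lat 1 ≃ₗ[ℤ] Lat 1) (e : ℤ) (n : Lat 1) : pw B e n = (B ^ e) n := rfl

@[simp] theorem pw_zero (B : Lat 1 ≃ₗ[ℤ] Lat 1) (n : Lat 1) : pw B 0 n = n := by
  rw [pw_apply, zpow_zero]
  rfl

theorem pw_one (B : Lat 1 ≃ₗ[ℤ] Lat 1) (n : Lat 1) : pw B 1 n = B n := by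
  rw [pw_apply, zpow_one]

theorem pw_add (B : Lat 1 ≃ₗ[ℤ] Lat 1) (e f : ℤ) (n : Lat 1) :
    pw B (e + f) n = pw B e (pw B f n) := by
  rw [pw_apply, pw_apply, pw_apply, zpow_add]
  rfl

theorem pw_succ (B : Lat 1 ≃ₗ[ℤ] Lat 1) (e : ℤ) (n : Lat 1) :
    pw B (e + 1) n = B (pw B e n) := by
  rw [add_comm, pw_add, pw_one]

theorem pw_neg_pw (B : Lat 1 ≃ₗ[ℤ] Lat 1) (e : ℤ) (n : Lat 1) : pw B (-e) (pw B e n) = n := by
  rw [← pw_add, neg_add_cancel, pw_zero]

theorem pw_pw_neg (B : Lat 1 ≃ₗ[ℤ] Lat 1) (e : ℤ) (n : Lat 1) : pw B e (pw B (-e) n) = n := by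
  rw [← pw_add, add_neg_cancel, pw_zero]

theorem pw_smul (B : Lat 1 ≃ₗ[ℤ] Lat 1) (e : ℤ) (a : ℤ) (n : Lat 1) :
    pw B e (a • n) = a • pw B e n := map_zsmul _ _ _

theorem pw_om_one {B : Lat 1 ≃ₗ[ℤ] Lat 1} {t : ℤ} (h : Cat B t) (m n : Lat 1) :
    omega (pw B (-1) m) (pw B (-1) n) = omega m n := by
  rw [← h.om (pw B (-1) m) (pw B (-1) n), ← pw_one, ← pw_one, pw_pw_neg, pw_pw_neg]

/-- The powers of `B` preserve `ω`. -/
theorem pw_om {B : Lat 1 ≃ₗ[ℤ] Lat 1} {t : ℤ} (h : Cat B t) (e : ℤ) (m n : Lat 1) :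
    omega (pw B e m) (pw B e n) = omega m n := by
  induction e using Int.induction_on generalizing m n with
  | zero => simp
  | succ i ih =>
    rw [pw_add, pw_add, ih, pw_one, pw_one, h.om]
  | pred i ih =>
    rw [sub_eq_add_neg, pw_add, pw_add, ih, pw_om_one h]

theorem omega_add_left (x y z : Lat 1) : omega (x + y) z = omega x z + omega y z := by
  simp only [omega, Pi.add_apply, ← Finset.sum_add_distrib]
  refine Finset.sum_congr rfl fun i _ => ?_
  ring

theorem omega_add_right (x y z : Lat 1) : omega x (y + z) = omega x y + omega x z := by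
  simp only [omega, Pi.add_apply, ← Finset.sum_add_distrib]
  refine Finset.sum_congr rfl fun i _ => ?_
  ring

theorem omega_self (x : Lat 1) : omega x x = 0 := by
  unfold omega
  refine Finset.sum_eq_zero fun i _ => by ring

theorem omega_swap (x y : Lat 1) : omega x y = - omega y x := by
  simp only [omega, ← Finset.sum_neg_distrib]
  refine Finset.sum_congr rfl fun i _ => ?_
  ring

theorem omega_smul_left (a : ℤ) (x y : Lat 1) : omega (a • x) y = a * omega x y := by
  simp only [omega, Finset.mul_sum, Pi.smul_apply, smul_eq_mul]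
  refine Finset.sum_congr rfl fun i _ => ?_
  ring

theorem omega_smul_right (a : ℤ) (x y : Lat 1) : omega x (a • y) = a * omega x y := by
  simp only [omega, Finset.mul_sum, Pi.smul_apply, smul_eq_mul]
  refine Finset.sum_congr rfl fun i _ => ?_
  ring

theorem omega_neg_left (x y : Lat 1) : omega (-x) y = - omega x y := by
  have := omega_smul_left (-1) x y
  simpa using this

theorem omega_neg_right (x y : Lat 1) : omega x (-y) = - omega x y := by
  have := omega_smul_right (-1) x y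
  simpa using this

theorem omega_zero_left (y : Lat 1) : omega (0 : Lat 1) y = 0 := by
  have := omega_smul_left 0 0 y
  simpa using this

theorem omega_zero_right (y : Lat 1) : omega y (0 : Lat 1) = 0 := by
  have := omega_smul_right 0 y 0
  simpa using this

theorem site_apply (B : Lat 1 ≃ₗ[ℤ] Lat 1) (s k r j : ℕ) (x : PP) :
    site B s k r j x = pw B ((s * j + r : ℕ) : ℤ) (x.1 + pw B (k : ℤ) x.2) := rfl

theorem siteI_apply (B : Lat 1 ≃ₗ[ℤ] Lat 1) (s j : ℕ) (x : PP) :
    siteI B s j x = (pw B ((s * j : ℕ) : ℤ) x.1, pw B ((s * j : ℕ) : ℤ) x.2) := rfl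

/-- `h(-x, y) = -h(x, y)`. -/
theorem Bil.negl {Γ : Type} [AddCommGroup Γ] {h : Γ → Γ → ℝ} (hb : Bil h) (x y : Γ) :
    h (-x) y = - h x y := by
  have h0 : h 0 y = 0 := by
    have := hb.addl 0 0 y
    rw [add_zero] at this
    linarith
  have := hb.addl x (-x) y
  rw [add_neg_cancel, h0] at this
  linarith

theorem Bil.negr {Γ : Type} [AddCommGroup Γ] {h : Γ → Γ → ℝ} (hb : Bil h) (x y : Γ) :
    h x (-y) = - h x y := by
  have h0 : h x 0 = 0 := by
    have := hb.addr x 0 0
    rw [add_zero] at this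
    linarith
  have := hb.addr x y (-y)
  rw [add_neg_cancel, h0] at this
  linarith

theorem Bil.zerol {Γ : Type} [AddCommGroup Γ] {h : Γ → Γ → ℝ} (hb : Bil h) (y : Γ) :
    h 0 y = 0 := by
  have := hb.addl 0 0 y
  rw [add_zero] at this
  linarith

theorem Bil.zeror {Γ : Type} [AddCommGroup Γ] {h : Γ → Γ → ℝ} (hb : Bil h) (x : Γ) :
    h x 0 = 0 := by
  have := hb.addr x 0 0
  rw [add_zero] at this
  linarith

theorem Bil.skew {Γ : Type} [AddCommGroup Γ] {h : Γ → Γ → ℝ} (hb : Bil h) (x y : Γ) :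
    h x y = - h y x := by
  have h1 := hb.self (x + y)
  rw [hb.addl, hb.addr, hb.addr, hb.self, hb.self] at h1
  linarith

/-- `ω / (2N)` is biadditive and alternating. -/
theorem bil_hN (N : ℕ) : Bil (hN N) := by
  refine ⟨fun x y z => ?_, fun x y z => ?_, fun x => ?_⟩
  · unfold hN
    rw [omega_add_left]
    push_cast
    ring
  · unfold hN
    rw [omega_add_right]
    push_cast
    ring
  · unfold hN
    rw [omega_self]
    simp

/-- `hh` is biadditive and alternating. -/
theorem bil_hh (B : Lat 1 ≃ₗ[ℤ] Lat 1) (t : ℤ) : Bil (hh B t) := by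
  refine ⟨fun x y z => ?_, fun x y z => ?_, fun x => ?_⟩
  · simp only [hh, beta, Prod.fst_add, Prod.snd_add, map_add, omega_add_left, omega_add_right]
    push_cast
    ring
  · simp only [hh, beta, Prod.fst_add, Prod.snd_add, map_add, omega_add_left, omega_add_right]
    push_cast
    ring
  · simp [hh]

theorem norm_ee (x : ℝ) : ‖ee x‖ = 1 := by
  unfold ee
  rw [show (2 * (Real.pi : ℂ) * Complex.I * (x : ℂ)) = ((2 * Real.pi * x : ℝ) : ℂ) * Complex.I by
    push_cast; ring]
  exact Complex.norm_exp_ofReal_mul_I _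

theorem ee_zero : ee 0 = 1 := by simp [ee]

theorem ee_add (x y : ℝ) : ee (x + y) = ee x * ee y := V0_ee_add x y

theorem ee_int (k : ℤ) : ee (k : ℝ) = 1 := V0_ee_int k

theorem conj_ee (x : ℝ) : (starRingEnd ℂ) (ee x) = ee (-x) := by
  unfold ee
  rw [← Complex.exp_conj]
  congr 1
  rw [map_mul, map_mul, map_mul, Complex.conj_ofReal, Complex.conj_ofReal, Complex.conj_I,
    map_ofNat]
  push_cast
  ring

/-- `|e(x) - 1| ≤ 2 π |x - z|` for every integer `z`. -/
theorem norm_ee_sub_one (x : ℝ) (z : ℤ) : ‖ee x - 1‖ ≤ 2 * Real.pi * |x - z| := by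
  have h1 : ee x = ee (x - z) := by
    rw [sub_eq_add_neg, ee_add]
    have h3 : ee (-(z : ℝ)) = 1 := by
      have := ee_int (-z)
      push_cast at this
      exact this
    rw [h3, mul_one]
  rw [h1]
  unfold ee
  rw [show (2 * (Real.pi : ℂ) * Complex.I * ((x - z : ℝ) : ℂ)) =
    Complex.I * ((2 * Real.pi * (x - z) : ℝ) : ℂ) by push_cast; ring]
  refine (Real.norm_exp_I_mul_ofReal_sub_one_le).trans ?_
  rw [Real.norm_eq_abs, abs_mul, abs_of_pos (by positivity : (0 : ℝ) < 2 * Real.pi)]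

end

end Pool.Agent.QS
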