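import Pool.Agent.helper4.QS.Spec

/-!
# Quantum cat maps at the shortest periods: COV
-/

open scoped BigOperators ComplexOrder ComplexConjugate Topology

namespace Pool.Agent.QS

open Pool.Agent.helper86.CM Filter

noncomputable section

def COV_Z (N : ℕ) : AddSubgroup (Lat 1) where
  carrier := {z | Dv N z}
  zero_mem' := ⟨0, by simp⟩
  add_mem' := by
    rintro a b ⟨a', rfl⟩ ⟨b', rfl⟩
    exact ⟨a' + b', by rw [smul_add]⟩
  neg_mem' := by
    rintro a ⟨a', rfl⟩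
    exact ⟨-a', by rw [smul_neg]⟩

theorem COV_fac_zero (B : Lat 1 ≃ₗ[ℤ] Lat 1) (t : ℤ) (Φ : PP → ℂ) (hΦ0 : Φ 0 = 1) (N R : ℕ)
    (ι : PP →+ Lat 1) (hR : (box R).Nonempty) :
    fac (hN N) ι (box R) (GΦ B t Φ R) 0 0 = 1 := by
  have hb := bil_hN N
  have hbl := bil_hh B t
  have hc : ((box R).card : ℂ) ≠ 0 := by
    have := Finset.card_pos.2 hR
    exact_mod_cast this.ne'
  unfold fac
  rw [hb.zeror, ee_zero, one_mul]
  calc _ = ∑ x ∈ box R, ((box R).card : ℂ)⁻¹ := Finset.sum_congr rfl fun x hx => by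
        rw [if_pos (by rwa [sub_zero]), sub_zero, map_zero, hb.zeror]
        simp [GΦ, hbl.self, ee_zero, hΦ0]
    _ = 1 := by
        rw [Finset.sum_const, nsmul_eq_mul]
        exact mul_inv_cancel₀ hc

theorem COV (hUNQ : UNQ_stmt) (hPH : PH_stmt) (hEV : EV_stmt) (hBOX : BOX_stmt)
    (hPDB : PDB_stmt) (hLUL : LUL_stmt) (hPAIR : PAIR_stmt) (hREPN : REPN_stmt)
    (hREPA : REPA_stmt) (hVST : VST_stmt) (hTR : TR_stmt) (hGRM : GRM_stmt) : COV_stmt := by
  intro B t hc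
  obtain ⟨Cu, hCu1, hu⟩ := hUNQ B t hc
  obtain ⟨Cp, hCp1, hp⟩ := hPH B t hc
  obtain ⟨C0, hC01, h0⟩ := hPAIR B t hc
  obtain ⟨⟨hlam, -, -⟩, -, hlu, -⟩ := hLUL t hc.lt
  have hpi := Real.pi_pos
  refine ⟨3 * C0 + 10 * Cu + 4 * Real.pi * Cp, ?_, ?_⟩
  · have : 0 ≤ 4 * Real.pi * Cp := by positivity
    linarith
  intro Φ hPD hΦ0 s J r R N _ hs hJ hR hNe hCR
  have hR1 : (1 : ℝ) ≤ R := by exact_mod_cast hR
  have hR0 : (0 : ℝ) < R := by linarith
  have hR2 : (1 : ℝ) ≤ (R : ℝ) ^ 2 := by nlinarith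
  set q : ℝ := ((lam t)⁻¹) ^ s with hq
  have hlam0 : 0 < lam t := by linarith
  have hlinv0 : 0 < (lam t)⁻¹ := inv_pos.2 hlam0
  have hlinv1 : (lam t)⁻¹ ≤ 1 := inv_le_one_of_one_le₀ (by linarith)
  have hq0 : 0 < q := pow_pos hlinv0 _
  have hq1 : q ≤ 1 := pow_le_one₀ hlinv0.le hlinv1
  have hpos1 : 0 ≤ 4 * Real.pi * Cp := by positivity
  have hbl := bil_hN N
  have hrep := hREPN N
  obtain ⟨hbox, -, -⟩ := hBOX
  have hne : (box R).Nonempty := ⟨0, by
    rw [hbox, norm_zero]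
    exact hR0.le⟩
  obtain ⟨E0, hE0v, hE0, hE0z⟩ := hTR N
  set E : Lat 1 → ℂ := iterE (hN N) (site B s (s * J) r) (box R) (GΦ B t Φ R) E0 J with hE
  have hG : Gram (box R) (GΦ B t Φ R) := by
    have := hGRM PP (hh B t) (bil_hh B t) Φ hPD (box R) (((box R).card : ℝ)⁻¹) (by positivity)
    have h2 : (fun x y : PP => ((((box R).card : ℝ)⁻¹ : ℝ) : ℂ) * ee (-(hh B t x y)) * Φ (x - y)) =
        GΦ B t Φ R := by
      funext x y
      unfold GΦ
      push_cast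
      rfl
    rw [h2] at this
    exact this
  have hEv : ∀ j, IsVec (TT (g := 1) (N := N))
      (iterE (hN N) (site B s (s * J) r) (box R) (GΦ B t Φ R) E0 j) := by
    intro j
    induction j with
    | zero => exact hE0v
    | succ j ih => exact hVST (Lat 1) PP (St 1 N) (hN N) hbl _ hrep _ _ _ _ ih hG
  obtain ⟨m, w, hw⟩ := hEv J
  have hw' : ∀ z, E z = ∑ l, inner ℂ (w l) (TT z (w l)) := hw
  have hEz : E 0 = 1 := by
    have hCu : Cu * ((2 * (R : ℝ)) ^ 2 + 1) ≤ (lam t) ^ s := by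
      refine le_trans ?_ hCR
      have e3 : 0 ≤ (3 * C0 + 4 * Real.pi * Cp) * (R : ℝ) ^ 2 := by positivity
      nlinarith
    have hEVal := hEV (Lat 1) PP (hN N) hbl (site B s (s * J) r) (box R) (GΦ B t Φ R) E0
      (COV_Z N) (fun z hz => hE0z z hz) hE0 {g | ‖g‖ ≤ 2 * R} (by
        show ‖(0 : PP)‖ ≤ 2 * R
        rw [norm_zero]
        positivity) J
      (fun g hg hgs => hu s J r N (2 * R) hs (by omega) (by positivity) hNe hCu g hg hgs)
      (fun _ => 0) (by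
        intro j _ x hx y hy
        rw [hbox] at hx hy
        show ‖0 + y - x‖ ≤ 2 * R
        have e1 := norm_sub_le (0 + y) x
        rw [zero_add] at e1 ⊢
        linarith)
    simp only [map_zero, Finset.sum_const_zero] at hEVal
    rw [hE, hEVal]
    exact Finset.prod_eq_one fun j _ => COV_fac_zero B t Φ hΦ0 N R _ hne
  have hsum : ∑ l, ‖w l‖ ^ 2 = 1 := by
    have h1 := hw' 0
    rw [hEz] at h1
    have h2 : ∀ l, inner ℂ (w l) (TT (0 : Lat 1) (w l)) = ((‖w l‖ ^ 2 : ℝ) : ℂ) := by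
      intro l
      rw [hrep.zero, inner_self_eq_norm_sq_to_K]
      push_cast
      rfl
    simp only [h2] at h1
    exact_mod_cast h1.symm
  have hE1 : ∀ z, ‖E z‖ ≤ 1 := by
    intro z
    rw [hw']
    refine (norm_sum_le _ _).trans ?_
    rw [← hsum]
    refine Finset.sum_le_sum fun l _ => ?_
    refine (norm_inner_le_norm _ _).trans ?_
    rw [hrep.norm, sq]
  have hCR' : C0 * (R : ℝ) ^ 2 ≤ (lam t) ^ s := by
    refine le_trans ?_ hCR
    have e3 : 0 ≤ (2 * C0 + 10 * Cu + 4 * Real.pi * Cp) * (R : ℝ) ^ 2 := by positivity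
    nlinarith
  have hpair : ∀ i i' : ℕ, i < J → i' < J → i ≠ i' → ∀ u u' : PP, ‖u‖ ≤ R → ‖u'‖ ≤ R →
      ‖E (site B s (s * J) r i u + site B s (s * J) r i' u') - Φ u * Φ u'‖ ≤
      C0 * ((‖u‖ + ‖u'‖) / R + (R : ℝ) ^ 2 * q) := by
    intro i i' hi hi' hii u u' hu1 hu2
    rcases lt_or_gt_of_ne hii with h | h
    · exact h0 Φ hPD hΦ0 s J r R N E0 hs hJ hR hNe hCR' hE0 hE0z i i' h hi' u u' hu1 hu2
    · have := h0 Φ hPD hΦ0 s J r R N E0 hs hJ hR hNe hCR' hE0 hE0z i' i h hi u' u hu2 hu1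
      rw [add_comm (site B s (s * J) r i u), mul_comm (Φ u), add_comm ‖u‖]
      exact this
  refine ⟨m, w, hsum, ?_⟩
  intro i i' hi hi' hii u u' hu1 hu2
  have hph : ∃ z : ℤ, |hN N (site B s (s * J) r i u) (site B s (s * J) r i' u') - z| ≤
      Cp * (R : ℝ) ^ 2 * (2 * q) := by
    have hgen : ∀ (a b : ℕ) (x y : PP), a < b → b < J → ‖x‖ ≤ R → ‖y‖ ≤ R →
        ∃ z : ℤ, |hN N (site B s (s * J) r b x) (site B s (s * J) r a y) - z| ≤
        Cp * (R : ℝ) ^ 2 * (2 * q) := by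
      intro a b x y hab hb hx hy
      obtain ⟨z, hz⟩ := hp s J r a b N x y hs hab hb hNe
      refine ⟨z, hz.trans ?_⟩
      have e1 : ((lam t)⁻¹) ^ (s * (b - a)) ≤ q := by
        rw [pow_mul, ← hq]
        exact pow_le_of_le_one hq0.le hq1 (by omega)
      have e2 : ((lam t)⁻¹) ^ (s * (J - (b - a))) ≤ q := by
        rw [pow_mul, ← hq]
        exact pow_le_of_le_one hq0.le hq1 (by omega)
      have e3 : Cp * ‖x‖ * ‖y‖ ≤ Cp * (R : ℝ) ^ 2 := by
        rw [mul_assoc, sq]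
        refine mul_le_mul_of_nonneg_left ?_ (by linarith)
        exact mul_le_mul hx hy (norm_nonneg _) hR0.le
      refine mul_le_mul e3 (by linarith) (by positivity) (by positivity)
    rcases lt_or_gt_of_ne hii with h | h
    · obtain ⟨z, hz⟩ := hgen i i' u' u h hi' hu2 hu1
      refine ⟨-z, ?_⟩
      rw [hbl.skew]
      have e : -(hN N (site B s (s * J) r i' u') (site B s (s * J) r i u)) - ((-z : ℤ) : ℝ) =
          -(hN N (site B s (s * J) r i' u') (site B s (s * J) r i u) - z) := by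
        push_cast
        ring
      rw [e, abs_neg]
      exact hz
    · exact hgen i' i u u' h hi hu1 hu2
  obtain ⟨z, hz⟩ := hph
  set x := site B s (s * J) r i u with hx
  set x' := site B s (s * J) r i' u' with hx'
  -- the expansion
  have hexp : ∑ l, inner ℂ (TT x (w l) - Φ u • w l) (TT x' (w l) - Φ u' • w l) =
      ee (-(hN N x x')) * E (x' - x) - Φ u' * conj (E x) - conj (Φ u) * E x' +
        conj (Φ u) * Φ u' := by
    have h1 : ∀ l, inner ℂ (TT x (w l) - Φ u • w l) (TT x' (w l) - Φ u' • w l) =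
        ee (-(hN N x x')) * inner ℂ (w l) (TT (x' - x) (w l)) -
        Φ u' * conj (inner ℂ (w l) (TT x (w l))) - conj (Φ u) * inner ℂ (w l) (TT x' (w l)) +
        conj (Φ u) * Φ u' * ((‖w l‖ ^ 2 : ℝ) : ℂ) := by
      intro l
      have e1 : inner ℂ (TT x (w l)) (TT x' (w l)) =
          ee (-(hN N x x')) * inner ℂ (w l) (TT (x' - x) (w l)) := by
        rw [hREPA (Lat 1) (St 1 N) (hN N) hbl _ hrep, hrep.mul, inner_smul_right, hbl.negl,
          neg_add_eq_sub]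
      have e2 : inner ℂ (TT x (w l)) (w l) = conj (inner ℂ (w l) (TT x (w l))) :=
        (inner_conj_symm _ _).symm
      have e3 : inner ℂ (w l) (w l) = ((‖w l‖ ^ 2 : ℝ) : ℂ) := by
        rw [inner_self_eq_norm_sq_to_K]
        push_cast
        rfl
      rw [inner_sub_left, inner_sub_right, inner_sub_right, inner_smul_left, inner_smul_right,
        inner_smul_left, inner_smul_right, e1, e2, e3]
      ring
    rw [Finset.sum_congr rfl fun l _ => h1 l, Finset.sum_add_distrib, Finset.sum_sub_distrib,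
      Finset.sum_sub_distrib, ← Finset.mul_sum, ← Finset.mul_sum, ← Finset.mul_sum,
      ← Finset.mul_sum, ← map_sum, ← hw', ← hw', ← hw']
    have e4 : ∑ l, ((‖w l‖ ^ 2 : ℝ) : ℂ) = 1 := by
      exact_mod_cast hsum
    rw [e4, mul_one]
  rw [hexp]
  obtain ⟨hΦ1, hΦc⟩ := hPDB PP (hh B t) (bil_hh B t) Φ hPD hΦ0
  have d1 : ‖E (x' - x) - Φ u' * conj (Φ u)‖ ≤ C0 * ((‖u‖ + ‖u'‖) / R + (R : ℝ) ^ 2 * q) := by
    have := hpair i' i hi' hi (Ne.symm hii) u' (-u) hu2 (by rw [norm_neg]; exact hu1)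
    rw [map_neg, ← sub_eq_add_neg, hΦc, norm_neg, add_comm ‖u'‖] at this
    exact this
  have d2 : ‖E x - Φ u‖ ≤ C0 * ((‖u‖ + ‖u'‖) / R + (R : ℝ) ^ 2 * q) := by
    have := hpair i i' hi hi' hii u 0 hu1 (by rw [norm_zero]; exact hR0.le)
    rw [map_zero, add_zero, hΦ0, mul_one, norm_zero, add_zero] at this
    refine this.trans (mul_le_mul_of_nonneg_left ?_ (by linarith))
    have : ‖u‖ / (R : ℝ) ≤ (‖u‖ + ‖u'‖) / R :=
      div_le_div_of_nonneg_right (by linarith [norm_nonneg u']) hR0.le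
    linarith
  have d3 : ‖E x' - Φ u'‖ ≤ C0 * ((‖u‖ + ‖u'‖) / R + (R : ℝ) ^ 2 * q) := by
    have := hpair i' i hi' hi (Ne.symm hii) u' 0 hu2 (by rw [norm_zero]; exact hR0.le)
    rw [map_zero, add_zero, hΦ0, mul_one, norm_zero, add_zero] at this
    refine this.trans (mul_le_mul_of_nonneg_left ?_ (by linarith))
    have : ‖u'‖ / (R : ℝ) ≤ (‖u‖ + ‖u'‖) / R :=
      div_le_div_of_nonneg_right (by linarith [norm_nonneg u]) hR0.le
    linarith
  have d4 : ‖ee (-(hN N x x')) - 1‖ ≤ 2 * Real.pi * (Cp * (R : ℝ) ^ 2 * (2 * q)) := by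
    refine (norm_ee_sub_one _ (-z)).trans ?_
    refine mul_le_mul_of_nonneg_left ?_ (by positivity)
    have e : -(hN N x x') - ((-z : ℤ) : ℝ) = -(hN N x x' - z) := by
      push_cast
      ring
    rw [e, abs_neg]
    exact hz
  set D := C0 * ((‖u‖ + ‖u'‖) / R + (R : ℝ) ^ 2 * q) with hD
  have hfin : ee (-(hN N x x')) * E (x' - x) - Φ u' * conj (E x) - conj (Φ u) * E x' +
        conj (Φ u) * Φ u' =
      (ee (-(hN N x x')) - 1) * E (x' - x) + (E (x' - x) - Φ u' * conj (Φ u)) -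
        Φ u' * conj (E x - Φ u) - conj (Φ u) * (E x' - Φ u') := by
    rw [map_sub]
    ring
  rw [hfin]
  have n1 : ‖(ee (-(hN N x x')) - 1) * E (x' - x)‖ ≤
      2 * Real.pi * (Cp * (R : ℝ) ^ 2 * (2 * q)) := by
    rw [norm_mul]
    calc _ ≤ 2 * Real.pi * (Cp * (R : ℝ) ^ 2 * (2 * q)) * 1 :=
          mul_le_mul d4 (hE1 _) (norm_nonneg _) (by positivity)
      _ = _ := mul_one _
  have n2 : ‖Φ u' * conj (E x - Φ u)‖ ≤ D := by
    rw [norm_mul, RCLike.norm_conj]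
    calc _ ≤ 1 * D := mul_le_mul (hΦ1 _) d2 (norm_nonneg _) zero_le_one
      _ = D := one_mul _
  have n3 : ‖conj (Φ u) * (E x' - Φ u')‖ ≤ D := by
    rw [norm_mul, RCLike.norm_conj]
    calc _ ≤ 1 * D := mul_le_mul (hΦ1 _) d3 (norm_nonneg _) zero_le_one
      _ = D := one_mul _
  have hA : 0 ≤ (‖u‖ + ‖u'‖) / (R : ℝ) := by positivity
  have hQ : 0 ≤ (R : ℝ) ^ 2 * q := by positivity
  calc _ ≤ ‖(ee (-(hN N x x')) - 1) * E (x' - x)‖ + ‖E (x' - x) - Φ u' * conj (Φ u)‖ +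
        ‖Φ u' * conj (E x - Φ u)‖ + ‖conj (Φ u) * (E x' - Φ u')‖ := by
        refine (norm_sub_le _ _).trans (add_le_add ?_ le_rfl)
        refine (norm_sub_le _ _).trans (add_le_add ?_ le_rfl)
        exact norm_add_le _ _
    _ ≤ 2 * Real.pi * (Cp * (R : ℝ) ^ 2 * (2 * q)) + D + D + D := by
        linarith
    _ ≤ (3 * C0 + 10 * Cu + 4 * Real.pi * Cp) *
        ((‖u‖ + ‖u'‖) / R + (R : ℝ) ^ 2 * q) := by
        have e1 : 0 ≤ 10 * Cu * ((‖u‖ + ‖u'‖) / R + (R : ℝ) ^ 2 * q) := by positivity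
        have e2 : 0 ≤ 4 * Real.pi * Cp * ((‖u‖ + ‖u'‖) / R) := by positivity
        rw [hD]
        nlinarith

end

end Pool.Agent.QS
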