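import Pool.Agent.helper86.CM.Defs3

/-!
# Quantum cat maps at the shortest periods: definitions

`A` is a hyperbolic matrix of theta type in `SL(2, ℤ)` with positive trace `t`, the Planck
parameters are the numbers `N = u_k` of the Lucas sequence `u_0 = 0`, `u_1 = 1`,
`u_{k+2} = t u_{k+1} - u_k`, for which the quantum period is as short as possible (`2 k`).
-/

open scoped BigOperators ComplexOrder

namespace Pool.Agent.QS

open Pool.Agent.helper86.CM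

noncomputable section

/-- The Lucas sequence `u_0 = 0`, `u_1 = 1`, `u_{k+2} = t u_{k+1} - u_k`. -/
def lu (t : ℤ) : ℕ → ℤ
  | 0 => 0
  | 1 => 1
  | (k + 2) => t * lu t (k + 1) - lu t k

/-- The larger root `λ` of `λ² - t λ + 1 = 0`. -/
def lam (t : ℤ) : ℝ := ((t : ℝ) + Real.sqrt ((t : ℝ) ^ 2 - 4)) / 2

/-- Pairs of frequencies. -/
abbrev PP := Lat 1 × Lat 1

/-- The pair `(A n, A m)`. -/
def actP (A : Matrix (Fin 1 ⊕ Fin 1) (Fin 1 ⊕ Fin 1) ℤ) (x : PP) : PP := (act A 1 x.1, act A 1 x.2)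

/-- The real valued form `β(n, m) = ω(n, A m) - λ⁻¹ ω(n, m)`. -/
def betaA (A : Matrix (Fin 1 ⊕ Fin 1) (Fin 1 ⊕ Fin 1) ℤ) (n m : Lat 1) : ℝ :=
  (omega n (act A 1 m) : ℝ) - (lam A.trace)⁻¹ * (omega n m : ℝ)

/-- The alternating form `(β(n, m') - β(n', m)) / 2` of the pairs `(n, m)`, `(n', m')`. -/
def formA (A : Matrix (Fin 1 ⊕ Fin 1) (Fin 1 ⊕ Fin 1) ℤ) (x y : PP) : ℝ :=
  (betaA A x.1 y.2 - betaA A y.1 x.2) / 2

/-- `E` is positive definite for the alternating form `h`: the matrices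
`(exp(-2πi h(x_i, x_j)) E(x_j - x_i))` are positive semidefinite, for all finite families `x_i`. -/
def PD {Γ : Type} [AddCommGroup Γ] (h : Γ → Γ → ℝ) (E : Γ → ℂ) : Prop :=
  ∀ (m : ℕ) (x : Fin m → Γ),
    (Matrix.of fun i j : Fin m => ee (-(h (x i) (x j))) * E (x j - x i)).PosSemidef

/-- The function `Φ` on the pairs of frequencies is a state, invariant under `A` and under the
exchange of the two components. -/
def IsInvState (A : Matrix (Fin 1 ⊕ Fin 1) (Fin 1 ⊕ Fin 1) ℤ) (Φ : PP → ℂ) : Prop :=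
  PD (formA A) Φ ∧ Φ 0 = 1 ∧ (∀ x, Φ (actP A x) = Φ x) ∧ ∀ x : PP, Φ (x.2, x.1) = Φ x

/-- `F` is a limit of Wigner transforms of unit eigenvectors of quantizations of `A`, the Planck
parameters being `N = u_k`, `k → ∞`. -/
def IsShortLimit (A : Matrix (Fin 1 ⊕ Fin 1) (Fin 1 ⊕ Fin 1) ℤ) (F : Lat 1 → ℂ) : Prop :=
  ∃ (k N : ℕ → ℕ) (_ : ∀ j, NeZero (N j)) (W : ℕ → Lat 1 → ℂ),
    Filter.Tendsto k Filter.atTop Filter.atTop ∧ (∀ j, ((N j : ℕ) : ℤ) = lu A.trace (k j)) ∧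
    (∀ j, W j ∈ WignerSet (TT (N := N j)) (act A 1)) ∧
    ∀ n, Filter.Tendsto (fun j => W j n) Filter.atTop (nhds (F n))

/-! ### The same objects for a linear equivalence -/

/-- `B` is a hyperbolic symplectic automorphism of the lattice with even trace `t > 2`. -/
structure Cat (B : Lat 1 ≃ₗ[ℤ] Lat 1) (t : ℤ) : Prop where
  om : ∀ m n, omega (B m) (B n) = omega m n
  ch : ∀ n, B (B n) = t • B n - n
  ev : (2 : ℤ) ∣ t
  lt : 2 < t

/-- `β(n, m) = ω(n, B m) - λ⁻¹ ω(n, m)`. -/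
def beta (B : Lat 1 ≃ₗ[ℤ] Lat 1) (t : ℤ) (n m : Lat 1) : ℝ :=
  (omega n (B m) : ℝ) - (lam t)⁻¹ * (omega n m : ℝ)

/-- `(β(n, m') - β(n', m)) / 2`. -/
def hh (B : Lat 1 ≃ₗ[ℤ] Lat 1) (t : ℤ) (x y : PP) : ℝ :=
  (beta B t x.1 y.2 - beta B t y.1 x.2) / 2

/-- The automorphism `B × B` of the group of pairs. -/
def BB (B : Lat 1 ≃ₗ[ℤ] Lat 1) (x : PP) : PP := (B x.1, B x.2)

/-- States invariant under `B` and the exchange. -/
structure Inv (B : Lat 1 ≃ₗ[ℤ] Lat 1) (t : ℤ) (Φ : PP → ℂ) : Prop where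
  pd : PD (hh B t) Φ
  one : Φ 0 = 1
  inv : ∀ x, Φ (BB B x) = Φ x
  swap : ∀ x : PP, Φ (x.2, x.1) = Φ x

/-- The form `ω / (2N)` of the Weyl relations. -/
def hN (N : ℕ) (x y : Lat 1) : ℝ := (omega x y : ℝ) / (2 * N)

/-! ### Abstract block states -/

section

variable {Γ P : Type} [AddCommGroup Γ] [AddCommGroup P]

/-- `h` is biadditive and alternating. -/
structure Bil (h : Γ → Γ → ℝ) : Prop where
  addl : ∀ x y z, h (x + y) z = h x z + h y z
  addr : ∀ x y z, h x (y + z) = h x y + h x z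
  self : ∀ x, h x x = 0

/-- `G` is a Gram matrix on the finite set `S`. -/
def Gram {P : Type} (S : Finset P) (G : P → P → ℂ) : Prop :=
  ∃ (m : ℕ) (d : Fin m → P → ℂ), ∀ x ∈ S, ∀ y ∈ S,
    G x y = ∑ a, (starRingEnd ℂ) (d a x) * d a y

/-- One block: the function `z ↦ Σ_{x, y ∈ S} G(x, y) E(T(-ιx) T(z) T(ιy))`. -/
def stepE (h : Γ → Γ → ℝ) (ι : P →+ Γ) (S : Finset P) (G : P → P → ℂ) (E : Γ → ℂ) (z : Γ) : ℂ :=
  ∑ x ∈ S, ∑ y ∈ S,
    G x y * ee (-(h (ι x) z) - h (ι y) z - h (ι x) (ι y)) * E (z + ι y - ι x)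

/-- `J` blocks at the sites `ι 0, …, ι (J - 1)`. -/
def iterE (h : Γ → Γ → ℝ) (ι : ℕ → (P →+ Γ)) (S : Finset P) (G : P → P → ℂ) (E0 : Γ → ℂ) :
    ℕ → Γ → ℂ
  | 0 => E0
  | (j + 1) => stepE h (ι j) S G (iterE h ι S G E0 j)

open Classical in
/-- The factor of one block. -/
def fac (h : Γ → Γ → ℝ) (ι : P →+ Γ) (S : Finset P) (G : P → P → ℂ) (u : P) (v : Γ) : ℂ :=
  ee (h (ι u) v) * ∑ x ∈ S, (if x - u ∈ S then
    G x (x - u) * ee (-(h (ι x) (ι u)) - 2 * h (ι x) v) else 0)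

/-- `T` is a representation of the Weyl relations of the form `h`. -/
structure Rep {H : Type} [NormedAddCommGroup H] [InnerProductSpace ℂ H] (h : Γ → Γ → ℝ)
    (T : Γ → (H →ₗ[ℂ] H)) : Prop where
  mul : ∀ x y v, T x (T y v) = ee (h x y) • T (x + y) v
  zero : ∀ v, T 0 v = v
  norm : ∀ x v, ‖T x v‖ = ‖v‖

/-- `E` is given by a finite family of vectors. -/
def IsVec {H : Type} [NormedAddCommGroup H] [InnerProductSpace ℂ H] (T : Γ → (H →ₗ[ℂ] H))
    (E : Γ → ℂ) : Prop :=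
  ∃ (m : ℕ) (w : Fin m → H), ∀ z, E z = ∑ l, inner ℂ (w l) (T z (w l))

end

/-! ### The sites -/

/-- The powers of `B` (with integer exponents) as additive maps. -/
def pw (B : Lat 1 ≃ₗ[ℤ] Lat 1) (e : ℤ) : Lat 1 →+ Lat 1 := ((B ^ e : Lat 1 ≃ₗ[ℤ] Lat 1) : Lat 1 →+ Lat 1)

/-- The site number `j` for the Planck parameter `u_k`: `(n, m) ↦ B^(s j + r) (n + B^k m)`. -/
def site (B : Lat 1 ≃ₗ[ℤ] Lat 1) (s k r : ℕ) (j : ℕ) : PP →+ Lat 1 where
  toFun x := pw B (s * j + r : ℕ) (x.1 + pw B k x.2)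
  map_zero' := by simp
  map_add' x y := by
    simp only [Prod.fst_add, Prod.snd_add, map_add]
    abel

/-- The site number `j` of the infinite system: `(n, m) ↦ (B^(s j) n, B^(s j) m)`. -/
def siteI (B : Lat 1 ≃ₗ[ℤ] Lat 1) (s : ℕ) (j : ℕ) : PP →+ PP where
  toFun x := (pw B (s * j : ℕ) x.1, pw B (s * j : ℕ) x.2)
  map_zero' := by simp
  map_add' x y := by simp

/-- The frequencies with entries between `-R` and `R`. -/
def box1 (R : ℕ) : Finset (Lat 1) := Fintype.piFinset fun _ => Finset.Icc (-(R : ℤ)) (R : ℤ)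

/-- The box of size `R`. -/
def box (R : ℕ) : Finset PP := box1 R ×ˢ box1 R

/-- The block matrix of the function `Φ`. -/
def GΦ (B : Lat 1 ≃ₗ[ℤ] Lat 1) (t : ℤ) (Φ : PP → ℂ) (R : ℕ) (x y : PP) : ℂ :=
  ((box R).card : ℂ)⁻¹ * ee (-(hh B t x y)) * Φ (x - y)

/-- Divisibility of a frequency by `N`. -/
def Dv (N : ℕ) (z : Lat 1) : Prop := ∃ z' : Lat 1, z = (N : ℤ) • z'

/-! ### The example -/

/-- The block of the example: `0, ±(b, 0), ±(0, b)`. -/
def blk (b : Lat 1) : Finset PP := {0, (b, 0), (-b, 0), (0, b), (0, -b)}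

/-- The weights of the example. -/
def wt (x : PP) : ℝ := if x = 0 then 1 / Real.sqrt 2 else 1 / (2 * Real.sqrt 2)

/-- The block matrix of the example. -/
def GX (x y : PP) : ℂ := ((wt x * wt y : ℝ) : ℂ)

/-- The initial function of the example. -/
def E00 (x : PP) : ℂ := if x = 0 then 1 else 0

/-- The block state of the example with `J` sites. -/
def EX0 (B : Lat 1 ≃ₗ[ℤ] Lat 1) (t : ℤ) (b : Lat 1) (s J : ℕ) : PP → ℂ :=
  iterE (hh B t) (siteI B s) (blk b) GX E00 J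

/-- Its mean over `s J` times. -/
def EXm (B : Lat 1 ≃ₗ[ℤ] Lat 1) (t : ℤ) (b : Lat 1) (s J : ℕ) (x : PP) : ℂ :=
  ((s * J : ℕ) : ℂ)⁻¹ * ∑ i ∈ Finset.range (s * J), EX0 B t b s J (pw B i x.1, pw B i x.2)

end

end Pool.Agent.QS
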