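import Pool.Agent.helper4.QS.Spec

/-!
# Quantum cat maps at the shortest periods: EXM (limits of the means of the example)
-/

open scoped BigOperators ComplexOrder ComplexConjugate Topology

namespace Pool.Agent.QS

open Pool.Agent.helper86.CM Filter

noncomputable section

theorem EXM_pw2 (B : Lat 1 ≃ₗ[ℤ] Lat 1) (a b : ℕ) (x : Lat 1) :
    pw B (a : ℤ) (pw B (b : ℤ) x) = pw B ((a + b : ℕ) : ℤ) x := by
  rw [← pw_add]
  push_cast
  rfl

/-- `EX0` is bounded by one. -/
theorem EXM_bound (hpds : PDS_stmt) (hpdb : PDB_stmt) (hexe : EXE_stmt)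
    (B : Lat 1 ≃ₗ[ℤ] Lat 1) (t : ℤ) (hB : Cat B t) (b : Lat 1) (hb : b ≠ 0) (s J : ℕ)
    (hs : 2 ≤ s) : ∀ x, ‖EX0 B t b s J x‖ ≤ 1 := by
  have h00 : PD (hh B t) E00 := by
    intro m x
    have hbl := bil_hh B t
    have key : (Matrix.of fun i j : Fin m => ee (-(hh B t (x i) (x j))) * E00 (x j - x i)) =
        ∑ z ∈ Finset.univ.image x, Matrix.vecMulVec (fun i => if x i = z then (1 : ℂ) else 0)
          (star fun i => if x i = z then (1 : ℂ) else 0) := by
      ext i j
      rw [Matrix.sum_apply]
      simp only [Matrix.of_apply, Matrix.vecMulVec_apply, Pi.star_apply]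
      rw [Finset.sum_eq_single (x i)]
      · by_cases hij : x j = x i
        · rw [if_pos rfl, if_pos hij, hij, hbl.self]
          simp [E00, ee_zero]
        · rw [if_neg hij]
          have : x j - x i ≠ 0 := sub_ne_zero.2 hij
          simp [E00, this]
      · intro z _ hz
        rw [if_neg (fun h => hz h.symm), zero_mul]
      · intro h
        exact absurd (Finset.mem_image_of_mem x (Finset.mem_univ i)) h
    rw [key]
    exact Matrix.posSemidef_sum _ fun z _ => Matrix.posSemidef_vecMulVec_self_star _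
  have hG : Gram (blk b) GX := by
    refine ⟨1, fun _ x => (wt x : ℂ), fun x _ y _ => ?_⟩
    simp [GX]
  have hpd : ∀ J, PD (hh B t) (EX0 B t b s J) := by
    intro J
    unfold EX0
    induction J with
    | zero => exact h00
    | succ J ih => exact hpds PP PP (hh B t) (bil_hh B t) _ _ _ _ ih hG
  have h0 : EX0 B t b s J 0 = 1 := by
    have := hexe B t hB b hb s J hs (fun _ => 0) (by simp)
    simp only [zero_smul, if_true, Int.cast_zero, zero_mul, Finset.sum_const_zero, mul_zero,
      Real.cos_zero] at this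
    have h2 : ((0 : Lat 1), (0 : Lat 1)) = (0 : PP) := rfl
    simp only [h2, map_zero, Finset.sum_const_zero] at this
    rw [this]
    refine Finset.prod_eq_one fun j _ => ?_
    norm_num
  exact (hpdb PP (hh B t) (bil_hh B t) _ (hpd J) h0).1

theorem EXM (hpds : PDS_stmt) (hpdb : PDB_stmt) (hexe : EXE_stmt) (hexz : EXZ_stmt)
    (hex1 : EX1_stmt) (hex2 : EX2_stmt) (hkp : KP_stmt) (hces : CES_stmt) (hlul : LUL_stmt) :
    EXM_stmt := by
  intro B t hB b hb s hs
  have hbd := fun J => EXM_bound hpds hpdb hexe B t hB b hb s J hs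
  obtain ⟨⟨hl2, -, -⟩, -⟩ := hlul t hB.lt
  have hs0 : (0 : ℝ) < s := by
    have : 0 < s := by omega
    exact_mod_cast this
  have hx0 : 0 < (lam t)⁻¹ := inv_pos.2 (by linarith)
  have hx1 : (lam t)⁻¹ < 1 := inv_lt_one_of_one_lt₀ (by linarith)
  obtain ⟨P, Q, hP, hP1, hQ, hQP⟩ := hkp (omega b (B b)) ((lam t)⁻¹) s hx0 hx1 (by omega)
  refine ⟨P, fun e => (1 / 4 * (∏ d ∈ Finset.Icc 1 (e - 1),
    kap (omega b (B b)) ((lam t)⁻¹) s d) * Q e) / s, hP, ?_, ?_, ?_⟩
  · have h1 : Tendsto (fun e : ℕ => ∏ d ∈ Finset.Icc 1 (e - 1),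
        kap (omega b (B b)) ((lam t)⁻¹) s d) atTop (𝓝 P) :=
      hP1.comp (tendsto_sub_atTop_nat 1)
    have h2 := ((h1.const_mul (1 / 4 : ℝ)).mul hQP).div_const (s : ℝ)
    convert h2 using 2
    field_simp
  · have h := hces s 0 (by omega)
      (fun J i => EX0 B t b s J (pw B (i : ℤ) b, 0))
      (fun m => ((1 / 2 * ∏ d ∈ Finset.Icc 1 m, kap (omega b (B b)) ((lam t)⁻¹) s d : ℝ) : ℂ))
      ((1 / 2 * P : ℝ) : ℂ) ?_ (fun J i => hbd J _) ?_ ?_
    · convert h using 2
      · unfold EXm
        simp
      · push_cast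
        field_simp
    · exact (Complex.continuous_ofReal.tendsto _).comp (hP1.const_mul (1 / 2 : ℝ))
    · intro J i hi
      refine (hexz B t hB b hb s J hs).1 i ?_
      rintro ⟨j, hj, hij⟩
      exact hi ⟨j, by simpa using hij, hj⟩
    · intro J i j hij hj
      have hij' : i = s * j := by simpa using hij
      show EX0 B t b s J (pw B (i : ℤ) b, 0) = _
      rw [hij']
      exact hex1 B t hB b hb s J j hs hj
  · intro r r' hrr
    by_cases hd : s ∣ r' - r
    · obtain ⟨e, he⟩ := hd
      have he1 : 1 ≤ e := by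
        rcases Nat.eq_zero_or_pos e with h | h
        · rw [h, mul_zero] at he
          omega
        · exact h
      have hr' : r' = r + s * e := by omega
      have hdiv : (r' - r) / s = e := by
        rw [he]
        exact Nat.mul_div_cancel_left e (by omega)
      have h := hces s r' (by omega)
        (fun J i => EX0 B t b s J (pw B ((i + r' : ℕ) : ℤ) b - pw B ((i + r : ℕ) : ℤ) b, 0))
        (fun m => ((1 / 4 * (∏ d ∈ Finset.Icc 1 (e - 1),
          kap (omega b (B b)) ((lam t)⁻¹) s d) * ∏ d ∈ Finset.Icc 1 m,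
          kap2 (omega b (B b)) ((lam t)⁻¹) s e d : ℝ) : ℂ))
        ((1 / 4 * (∏ d ∈ Finset.Icc 1 (e - 1),
          kap (omega b (B b)) ((lam t)⁻¹) s d) * Q e : ℝ) : ℂ) ?_ (fun J i => hbd J _) ?_ ?_
      · rw [if_pos ⟨e, he⟩, hdiv]
        convert h using 2
        · unfold EXm
          congr 1
          refine Finset.sum_congr rfl fun i _ => ?_
          simp only [map_sub, map_zero, EXM_pw2]
        · push_cast
          rfl
      · exact (Complex.continuous_ofReal.tendsto _).comp ((hQ e).const_mul _)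
      · intro J i hi
        refine (hexz B t hB b hb s J hs).2 (i + r') (i + r) (by omega) ?_
        rintro ⟨⟨j, hj, hij⟩, -⟩
        exact hi ⟨j, hij, hj⟩
      · intro J i j hij hj
        have hje : e ≤ j := by
          by_contra hlt
          push Not at hlt
          have h1 : s * j < s * e := Nat.mul_lt_mul_of_pos_left hlt (by omega)
          omega
        obtain ⟨i0, rfl⟩ := Nat.exists_eq_add_of_le hje
        have hi0 : i + r = s * i0 := by
          have : s * (e + i0) = s * e + s * i0 := by ring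
          omega
        show EX0 B t b s J (pw B ((i + r' : ℕ) : ℤ) b - pw B ((i + r : ℕ) : ℤ) b, 0) = _
        rw [hij, hi0, add_comm e i0]
        exact hex2 B t hB b hb s J i0 e hs he1 (by omega)
    · rw [if_neg hd]
      have hz : ∀ J, EXm B t b s J (pw B (r' : ℤ) b - pw B (r : ℤ) b, 0) = 0 := by
        intro J
        unfold EXm
        rw [Finset.sum_eq_zero, mul_zero]
        intro i _
        simp only [map_sub, map_zero, EXM_pw2]
        refine (hexz B t hB b hb s J hs).2 (i + r') (i + r) (by omega) ?_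
        rintro ⟨⟨j, _, hij⟩, ⟨j', _, hij'⟩⟩
        apply hd
        have : r' - r = s * j - s * j' := by omega
        rw [this]
        exact Nat.dvd_sub (dvd_mul_right _ _) (dvd_mul_right _ _)
      simp only [hz]
      simp

end

end Pool.Agent.QS
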