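import Pool.Agent.helper4.QS.Spec

/-!
# Quantum cat maps at the shortest periods: EXP (positivity of the means of the example)
-/

open scoped BigOperators ComplexOrder ComplexConjugate Topology

namespace Pool.Agent.QS

open Pool.Agent.helper86.CM Filter

noncomputable section

theorem EXP_E00 (B : Lat 1 ≃ₗ[ℤ] Lat 1) (t : ℤ) : PD (hh B t) E00 := by
  intro m x
  have hbl := bil_hh B t
  have key : (Matrix.of fun i j : Fin m => ee (-(hh B t (x i) (x j))) * E00 (x j - x i)) =
      ∑ z ∈ Finset.univ.image x, Matrix.vecMulVec (fun i => if x i = z then (1 : ℂ) else 0)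
        (star fun i => if x i = z then (1 : ℂ) else 0) := by
    ext i j
    rw [Matrix.sum_apply]
    simp only [Matrix.of_apply, Matrix.vecMulVec_apply, Pi.star_apply]
    rw [Finset.sum_eq_single (x i)]
    · by_cases hij : x j = x i
      · rw [if_pos rfl, if_pos hij, hij, hbl.self]
        simp [E00, ee_zero]
      · rw [if_neg hij]
        have : x j - x i ≠ 0 := sub_ne_zero.2 hij
        simp [E00, this]
    · intro z _ hz
      rw [if_neg (fun h => hz h.symm), zero_mul]
    · intro h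
      exact absurd (Finset.mem_image_of_mem x (Finset.mem_univ i)) h
  rw [key]
  exact Matrix.posSemidef_sum _ fun z _ => Matrix.posSemidef_vecMulVec_self_star _

theorem EXP_pd (hpds : PDS_stmt) (B : Lat 1 ≃ₗ[ℤ] Lat 1) (t : ℤ) (b : Lat 1) (s J : ℕ) :
    PD (hh B t) (EX0 B t b s J) := by
  have hG : Gram (blk b) GX := by
    refine ⟨1, fun _ x => (wt x : ℂ), fun x _ y _ => ?_⟩
    simp [GX]
  unfold EX0
  induction J with
  | zero => exact EXP_E00 B t
  | succ J ih => exact hpds PP PP (hh B t) (bil_hh B t) _ _ _ _ ih hG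

theorem EXP_zero (hexe : EXE_stmt)
    (B : Lat 1 ≃ₗ[ℤ] Lat 1) (t : ℤ) (hB : Cat B t) (b : Lat 1) (hb : b ≠ 0) (s J : ℕ)
    (hs : 2 ≤ s) : EX0 B t b s J 0 = 1 := by
  have := hexe B t hB b hb s J hs (fun _ => 0) (by simp)
  simp only [zero_smul, if_true, Int.cast_zero, zero_mul, Finset.sum_const_zero, mul_zero,
    Real.cos_zero] at this
  have h2 : ((0 : Lat 1), (0 : Lat 1)) = (0 : PP) := rfl
  simp only [h2, map_zero, Finset.sum_const_zero] at this
  rw [this]
  refine Finset.prod_eq_one fun j _ => ?_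
  norm_num

/-- Composition with a power of `B` preserves positive definiteness. -/
theorem EXP_comp (hbet : BET_stmt) (B : Lat 1 ≃ₗ[ℤ] Lat 1) (t : ℤ) (hB : Cat B t) (E : PP → ℂ)
    (h : PD (hh B t) E) (e : ℤ) : PD (hh B t) (fun x => E (pw B e x.1, pw B e x.2)) := by
  intro m x
  have h1 := h m (fun i => ((pw B e (x i).1, pw B e (x i).2) : PP))
  have h2 : (Matrix.of fun i j : Fin m => ee (-(hh B t ((pw B e (x i).1, pw B e (x i).2) : PP)
      ((pw B e (x j).1, pw B e (x j).2) : PP))) * E (((pw B e (x j).1, pw B e (x j).2) : PP) -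
      ((pw B e (x i).1, pw B e (x i).2) : PP))) =
      Matrix.of fun i j : Fin m => ee (-(hh B t (x i) (x j))) *
        E (pw B e (x j - x i).1, pw B e (x j - x i).2) := by
    ext i j
    simp only [Matrix.of_apply]
    rw [(hbet B t hB).2.1 e (x i) (x j)]
    congr 2
    simp
  rw [h2] at h1
  exact h1

theorem EXP (hpds : PDS_stmt) (hpdb : PDB_stmt) (hexe : EXE_stmt) (hbet : BET_stmt)
    (hexs : EXS_stmt) : EXP_stmt := by
  intro B t hB b hb s J hs hJ
  have hpd0 : PD (hh B t) (EX0 B t b s J) := EXP_pd hpds B t b s J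
  have h00 : EX0 B t b s J 0 = 1 := EXP_zero hexe B t hB b hb s J hs
  have hbd0 : ∀ x, ‖EX0 B t b s J x‖ ≤ 1 := (hpdb PP (hh B t) (bil_hh B t) _ hpd0 h00).1
  have hn : 0 < s * J := Nat.mul_pos (by omega) (by omega)
  have hn0 : ((s * J : ℕ) : ℂ) ≠ 0 := by exact_mod_cast hn.ne'
  have hnr : (0 : ℝ) < ((s * J : ℕ) : ℝ) := by exact_mod_cast hn
  have hpdm : PD (hh B t) (EXm B t b s J) := by
    intro m x
    have key : (Matrix.of fun i j : Fin m => ee (-(hh B t (x i) (x j))) *
        EXm B t b s J (x j - x i)) = (((s * J : ℕ) : ℝ)⁻¹) •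
        ∑ l ∈ Finset.range (s * J), (Matrix.of fun i j : Fin m => ee (-(hh B t (x i) (x j))) *
          EX0 B t b s J (pw B (l : ℤ) (x j - x i).1, pw B (l : ℤ) (x j - x i).2)) := by
      ext i j
      rw [Matrix.smul_apply, Matrix.sum_apply]
      simp only [Matrix.of_apply, EXm]
      rw [← Finset.mul_sum, Complex.real_smul]
      push_cast
      ring_nf
    rw [key]
    refine Matrix.PosSemidef.smul (Matrix.posSemidef_sum _ fun l _ => ?_) (by positivity)
    exact EXP_comp hbet B t hB _ hpd0 (l : ℤ) m x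
  have h1 : EXm B t b s J 0 = 1 := by
    unfold EXm
    have : ∀ i ∈ Finset.range (s * J), EX0 B t b s J (pw B (i : ℤ) (0 : PP).1,
        pw B (i : ℤ) (0 : PP).2) = 1 := by
      intro i _
      have h2 : ((pw B (i : ℤ) (0 : PP).1, pw B (i : ℤ) (0 : PP).2) : PP) = 0 := by
        ext <;> simp
      rw [h2, h00]
    rw [Finset.sum_congr rfl this, Finset.sum_const, Finset.card_range, nsmul_eq_mul, mul_one,
      inv_mul_cancel₀ hn0]
  refine ⟨hpdm, h1, (hpdb PP (hh B t) (bil_hh B t) _ hpdm h1).1, ?_, ?_⟩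
  · intro x
    unfold EXm
    congr 1
    refine Finset.sum_congr rfl fun i _ => ?_
    exact hexs B t hB b s J (pw B (i : ℤ) x.1, pw B (i : ℤ) x.2)
  · intro x
    have hsh : ∀ i : ℕ, EX0 B t b s J (pw B (i : ℤ) (BB B x).1, pw B (i : ℤ) (BB B x).2) =
        EX0 B t b s J (pw B ((i + 1 : ℕ) : ℤ) x.1, pw B ((i + 1 : ℕ) : ℤ) x.2) := by
      intro i
      have : ∀ y : Lat 1, pw B (i : ℤ) (B y) = pw B ((i + 1 : ℕ) : ℤ) y := by
        intro y
        rw [← pw_one B y, ← pw_add]
        push_cast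
        rfl
      show EX0 B t b s J (pw B (i : ℤ) (B x.1), pw B (i : ℤ) (B x.2)) = _
      rw [this, this]
    have hdiff : EXm B t b s J (BB B x) - EXm B t b s J x =
        ((s * J : ℕ) : ℂ)⁻¹ * (EX0 B t b s J (pw B ((s * J : ℕ) : ℤ) x.1,
          pw B ((s * J : ℕ) : ℤ) x.2) - EX0 B t b s J (pw B ((0 : ℕ) : ℤ) x.1,
          pw B ((0 : ℕ) : ℤ) x.2)) := by
      unfold EXm
      rw [← mul_sub, ← Finset.sum_sub_distrib]
      congr 1
      rw [← Finset.sum_range_sub (fun i => EX0 B t b s J (pw B (i : ℤ) x.1, pw B (i : ℤ) x.2))]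
      refine Finset.sum_congr rfl fun i _ => ?_
      rw [hsh]
    rw [hdiff, norm_mul, norm_inv, Complex.norm_natCast]
    calc ((s * J : ℕ) : ℝ)⁻¹ * _ ≤ ((s * J : ℕ) : ℝ)⁻¹ * (1 + 1) := by
          refine mul_le_mul_of_nonneg_left ?_ (by positivity)
          exact (norm_sub_le _ _).trans (add_le_add (hbd0 _) (hbd0 _))
      _ = 2 / ((s * J : ℕ) : ℝ) := by ring

end

end Pool.Agent.QS
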