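import Pool.Agent.helper4.QS.Spec

/-!
# Quantum cat maps at the shortest periods: PDB, PRD
-/

open scoped BigOperators ComplexOrder ComplexConjugate Topology

namespace Pool.Agent.QS

open Pool.Agent.helper86.CM Filter

noncomputable section

theorem PDB : PDB_stmt := by
  intro Γ _ h hb E hE h0
  have key : ∀ x : Γ, E (-x) = conj (E x) ∧ ‖E x‖ ≤ 1 := by
    intro x
    have h1 := hE 2 ![0, x]
    set M := (Matrix.of fun i j : Fin 2 => ee (-(h (![0, x] i) (![0, x] j))) *
      E (![0, x] j - ![0, x] i)) with hM
    have h00 : M 0 0 = 1 := by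
      simp [hM, hb.self, ee_zero, h0]
    have h11 : M 1 1 = 1 := by
      simp [hM, hb.self, ee_zero, h0]
    have h01 : M 0 1 = E x := by
      simp [hM, hb.zerol, ee_zero]
    have h10 : M 1 0 = E (-x) := by
      simp [hM, hb.zeror, ee_zero]
    have hherm := h1.isHermitian
    have hc : M 1 0 = conj (M 0 1) := by
      have := hherm.apply 1 0
      rw [← this]
      rfl
    refine ⟨by rw [← h10, hc, h01], ?_⟩
    have h2 := h1.det_nonneg
    rw [Matrix.det_fin_two, h00, h11, hc, h01, one_mul, Complex.mul_conj] at h2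
    have h3 : (0 : ℝ) ≤ 1 - Complex.normSq (E x) := by
      have : ((1 : ℂ) - (Complex.normSq (E x) : ℂ)) = ((1 - Complex.normSq (E x) : ℝ) : ℂ) := by
        push_cast; rfl
      rw [this] at h2
      exact_mod_cast h2
    rw [Complex.normSq_eq_norm_sq] at h3
    nlinarith [norm_nonneg (E x)]
  exact ⟨fun x => (key x).2, fun x => (key x).1⟩

theorem PRD : PRD_stmt := by
  intro s a b ha hb
  induction s using Finset.induction_on with
  | empty => simp
  | insert i s hi ih =>
    rw [Finset.prod_insert hi, Finset.prod_insert hi, Finset.sum_insert hi]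
    have ih' := ih (fun j hj => ha j (Finset.mem_insert_of_mem hj))
      (fun j hj => hb j (Finset.mem_insert_of_mem hj))
    have h1 : a i * ∏ j ∈ s, a j - b i * ∏ j ∈ s, b j =
        (a i - b i) * ∏ j ∈ s, a j + b i * (∏ j ∈ s, a j - ∏ j ∈ s, b j) := by ring
    rw [h1]
    refine (norm_add_le _ _).trans (add_le_add ?_ ?_)
    · rw [norm_mul]
      refine mul_le_of_le_one_right (norm_nonneg _) ?_
      rw [norm_prod]
      exact Finset.prod_le_one (fun _ _ => norm_nonneg _)
        fun j hj => ha j (Finset.mem_insert_of_mem hj)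
    · rw [norm_mul]
      refine (mul_le_of_le_one_left (norm_nonneg _) (hb i (Finset.mem_insert_self _ _))).trans ih'

end

end Pool.Agent.QS
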