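import Pool.Agent.helper4.QS.Spec

/-!
# Quantum cat maps at the shortest periods: REPA, INVA
-/

open scoped BigOperators ComplexOrder ComplexConjugate Topology

namespace Pool.Agent.QS

open Pool.Agent.helper86.CM Filter

noncomputable section

theorem REPA : REPA_stmt := by
  intro Γ _ H _ _ h hb T hT x v w
  let L : H →ₗᵢ[ℂ] H := ⟨T x, hT.norm x⟩
  have h1 : T x (T (-x) w) = w := by
    rw [hT.mul, hb.negr, hb.self, neg_zero, ee_zero, one_smul, add_neg_cancel, hT.zero]
  have h2 := L.inner_map_map v (T (-x) w)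
  have h3 : inner ℂ (T x v) (T x (T (-x) w)) = inner ℂ v (T (-x) w) := h2
  rw [h1] at h3
  exact h3

theorem INVA : INVA_stmt := by
  intro A B hBA Φ
  have hform : formA A = hh B A.trace := by
    funext x y
    simp only [formA, hh, betaA, beta, hBA]
  have hact : ∀ x, actP A x = BB B x := by
    intro x
    simp only [actP, BB, hBA]
  constructor
  · rintro ⟨h1, h2, h3, h4⟩
    refine ⟨hform ▸ h1, h2, fun x => ?_, h4⟩
    rw [← hact]
    exact h3 x
  · intro h
    refine ⟨hform ▸ h.pd, h.one, fun x => ?_, h.swap⟩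
    rw [hact]
    exact h.inv x

end

end Pool.Agent.QS
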