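import Pool.Agent.helper4.QS.Spec

/-!
# Quantum cat maps at the shortest periods: assembly
-/

open scoped BigOperators ComplexOrder ComplexConjugate Topology

namespace Pool.Agent.QS

open Pool.Agent.helper86.CM Filter

noncomputable section

/-- The first marginal of an invariant state is positive definite. -/
theorem Z_marg (A : Matrix (Fin 1 ⊕ Fin 1) (Fin 1 ⊕ Fin 1) ℤ) (Φ : PP → ℂ)
    (h : PD (formA A) Φ) (m : ℕ) (x : Fin m → Lat 1) :
    (Matrix.of fun i j : Fin m => Φ (x j - x i, 0)).PosSemidef := by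
  have h1 := h m (fun i => ((x i, 0) : PP))
  have h2 : (Matrix.of fun i j : Fin m => ee (-(formA A ((x i, 0) : PP) (x j, 0))) *
      Φ (((x j, 0) : PP) - (x i, 0))) = Matrix.of fun i j : Fin m => Φ (x j - x i, 0) := by
    ext i j
    simp only [Matrix.of_apply]
    have h3 : formA A ((x i, 0) : PP) (x j, 0) = 0 := by
      have h4 : act A 1 (0 : Lat 1) = 0 := by simp [act]
      simp [formA, betaA, h4, omega_zero_right]
    rw [h3, neg_zero, ee_zero, one_mul]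
    simp
  rw [h2] at h1
  exact h1

theorem Z_transform (hboc : BOC_stmt) (A : Matrix (Fin 1 ⊕ Fin 1) (Fin 1 ⊕ Fin 1) ℤ) (Φ : PP → ℂ)
    (h : IsInvState A Φ) : IsTransform fun n => Φ (n, 0) := by
  refine hboc _ ?_ fun m x => Z_marg A Φ h.1 m x
  exact h.2.1

theorem ZS (hcat : CAT_stmt) (hinv : INVA_stmt) (hexl : EXL_stmt) (havg : AVG_stmt)
    (hsng : SNG_stmt) (hsuf : SUF_stmt) (hboc : BOC_stmt) (hbet : BET_stmt) (hlul : LUL_stmt)
    (hpdb : PDB_stmt) : ZS_stmt := by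
  intro A hA hq ht
  obtain ⟨B, hB, hBA⟩ := hcat A hA hq ht
  set b : Lat 1 := fun _ => 1 with hb
  have hb0 : b ≠ 0 := by
    intro h
    have := congrFun h (Sum.inl 0)
    simp [hb] at this
  obtain ⟨Φ, P, ρ, hΦ, hP, hρ, hb1, hb2⟩ := hexl B A.trace hB b hb0 2 le_rfl
  have hst : IsInvState A Φ := (hinv A B hBA Φ).2 hΦ
  obtain ⟨μ, hμ, hF'⟩ := Z_transform hboc A Φ hst
  have hF : ∀ n : Lat 1, ∫ y, chr n y ∂μ = Φ (n, 0) := hF'
  refine ⟨fun n => Φ (n, 0), μ, hμ, hsuf A hA hq ht Φ hst, hF, ?_⟩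
  obtain ⟨hbe1, -, hbe3, hbe4⟩ := hbet B A.trace hB
  obtain ⟨⟨hl1, -, -⟩, -⟩ := hlul A.trace ht
  have hpd := hpdb PP (hh B A.trace) (bil_hh B A.trace) Φ hΦ.pd hΦ.one
  have hinvn : ∀ (r : ℕ), Φ (pw B (r : ℤ) b, 0) = Φ (b, 0) := by
    intro r
    induction r with
    | zero => simp
    | succ r ih =>
      rw [← ih]
      have := hΦ.inv (pw B (r : ℤ) b, 0)
      rw [← this]
      congr 1
      show ((pw B ((r + 1 : ℕ) : ℤ) b, (0 : Lat 1)) : PP) = (B (pw B (r : ℤ) b), B 0)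
      rw [map_zero, ← pw_succ]
      push_cast
      rfl
  refine hsng μ hμ (fun r : ℕ => pw B (r : ℤ) b) (P / (2 * 2)) (by positivity) ?_ ?_ ?_
  · intro r r' hrr
    have h1 := congrArg (beta B A.trace b) hrr
    simp only [hbe1, hbe3] at h1
    have h2 : (omega b (B b) : ℝ) ≠ 0 := by exact_mod_cast hbe4 b hb0
    have h3 := mul_right_cancel₀ h2 h1
    have h4 : (lam A.trace) ^ r = (lam A.trace) ^ r' := by
      rw [zpow_natCast, zpow_natCast] at h3
      exact h3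
    have hl0 : (1 : ℝ) < lam A.trace := by linarith
    exact pow_right_injective₀ (by linarith) (ne_of_gt hl0) h4
  · intro r
    rw [hF, hinvn, hb1]
    norm_num
  · have h1 := havg 2 (by norm_num) ρ _ hρ
      (fun r r' => ∫ y, chr (pw B (r' : ℤ) b - pw B (r : ℤ) b) y ∂μ) ?_ ?_ ?_
    · convert h1 using 3
      norm_num
      ring
    · intro r
      show ∫ y, chr (pw B (r : ℤ) b - pw B (r : ℤ) b) y ∂μ = 1
      rw [hF, sub_self]
      exact hΦ.one
    · intro r r'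
      show ∫ y, chr (pw B (r : ℤ) b - pw B (r' : ℤ) b) y ∂μ =
        conj (∫ y, chr (pw B (r' : ℤ) b - pw B (r : ℤ) b) y ∂μ)
      rw [hF, hF]
      have := hpd.2 (pw B (r' : ℤ) b - pw B (r : ℤ) b, 0)
      rw [← this]
      congr 1
      simp
    · intro r r' hr
      show ∫ y, chr (pw B (r' : ℤ) b - pw B (r : ℤ) b) y ∂μ = _
      rw [hF]
      exact hb2 r r' hr

theorem FIN (hnec : NEC_stmt) (hsuf : SUF_stmt) (hboc : BOC_stmt) (hzs : ZS_stmt) : FIN_stmt := by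
  intro A hA hq ht
  have h1 : ∀ F : Lat 1 → ℂ, IsShortLimit A F ↔
      ∃ Φ : PP → ℂ, IsInvState A Φ ∧ ∀ n, F n = Φ (n, 0) := by
    intro F
    constructor
    · exact hnec A hA hq ht F
    · rintro ⟨Φ, hΦ, hF⟩
      have : F = fun n => Φ (n, 0) := funext hF
      rw [this]
      exact hsuf A hA hq ht Φ hΦ
  refine ⟨h1, ?_, hzs A hA hq ht⟩
  intro F hF
  obtain ⟨Φ, hΦ, hFΦ⟩ := (h1 F).1 hF
  have : F = fun n => Φ (n, 0) := funext hFΦ
  rw [this]
  exact Z_transform hboc A Φ hΦ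

end

end Pool.Agent.QS
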