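import Pool.Agent.helper11.QS.BET
import Pool.Agent.helper20.QS.BOX
import Pool.Agent.helper20.QS.LAC3
import Pool.Agent.helper20.QS.PDL
import Pool.Agent.helper21.QS.CES
import Pool.Agent.helper21.QS.EXZ
import Pool.Agent.helper22.QS.EV
import Pool.Agent.helper22.QS.EX1
import Pool.Agent.helper22.QS.EXE
import Pool.Agent.helper25.QS.EXL
import Pool.Agent.helper27.QS.EXF
import Pool.Agent.helper27.QS.SUPP
import Pool.Agent.helper28.QS.BOC
import Pool.Agent.helper32.QS.EX2
import Pool.Agent.helper34.QS.DBL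
import Pool.Agent.helper34.QS.LUL
import Pool.Agent.helper4.QS.COV
import Pool.Agent.helper4.QS.EXP
import Pool.Agent.helper4.QS.PDB
import Pool.Agent.helper4.QS.REPA
import Pool.Agent.helper4.QS.Z
import Pool.Agent.helper44.QS.SUB
import Pool.Agent.helper46.QS.EIG
import Pool.Agent.helper46.QS.KP
import Pool.Agent.helper46.QS.UN1
import Pool.Agent.helper52.QS.EXS
import Pool.Agent.helper52.QS.PER
import Pool.Agent.helper59.QS.LAC1
import Pool.Agent.helper59.QS.LUQ
import Pool.Agent.helper59.QS.REPN
import Pool.Agent.helper59.QS.TIM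
import Pool.Agent.helper6.QS.VAR
import Pool.Agent.helper63.QS.LUA
import Pool.Agent.helper63.QS.PH
import Pool.Agent.helper63.QS.PH0
import Pool.Agent.helper64.QS.TR
import Pool.Agent.helper71.QS.AVG
import Pool.Agent.helper71.QS.FACE
import Pool.Agent.helper72.QS.PDS
import Pool.Agent.helper74.QS.GEO
import Pool.Agent.helper74.QS.UNQ
import Pool.Agent.helper77.QS.CAT
import Pool.Agent.helper77.QS.NRM
import Pool.Agent.helper77.QS.QF0
import Pool.Agent.helper78.QS.NE1
import Pool.Agent.helper78.QS.WIG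
import Pool.Agent.helper79.QS.LACL
import Pool.Agent.helper87.QS.NEC
import Pool.Agent.helper90.QS.EXM
import Pool.Agent.helper91.QS.GRM
import Pool.Agent.helper91.QS.LAC2
import Pool.Agent.helper91.QS.VST
import Pool.Agent.helper92.QS.PAIR
import Pool.Agent.helper92.QS.SUF
import Pool.Agent.helper97.QS.LUP
import Pool.Agent.helper97.QS.PAR
import Pool.Agent.helper99.QS.OMB
import Pool.Agent.helper99.QS.SNG

/-!
# Quantum cat maps at the shortest periods: all modules together
-/

namespace Pool.Agent.QS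

theorem CAT_all : CAT_stmt := CAT

theorem LUA_all : LUA_stmt := LUA

theorem LUQ_all : LUQ_stmt := LUQ

theorem LUP_all : LUP_stmt := LUP

theorem LUL_all : LUL_stmt := LUL

theorem DBL_all : DBL_stmt := DBL

theorem PER_all : PER_stmt := PER DBL_all

theorem NRM_all : NRM_stmt := NRM LUA_all LUP_all LUL_all

theorem OMB_all : OMB_stmt := OMB

theorem QF0_all : QF0_stmt := QF0

theorem BET_all : BET_stmt := BET LUL_all QF0_all

theorem UN1_all : UN1_stmt := UN1 QF0_all

theorem GEO_all : GEO_stmt := GEO LUL_all NRM_all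

theorem LACL_all : LACL_stmt := LACL BET_all QF0_all LUL_all NRM_all OMB_all

theorem UNQ_all : UNQ_stmt := UNQ LUA_all LUQ_all LUP_all LUL_all UN1_all GEO_all LACL_all

theorem PH_all : PH_stmt := PH DBL_all NRM_all OMB_all LUL_all

theorem PH0_all : PH0_stmt := PH0 LUA_all OMB_all LUL_all

theorem SUPP_all : SUPP_stmt := SUPP

theorem EV_all : EV_stmt := EV SUPP_all

theorem PDS_all : PDS_stmt := PDS_main

theorem GRM_all : GRM_stmt := GRM_main

theorem PDL_all : PDL_stmt := PDL

theorem PDB_all : PDB_stmt := PDB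

theorem REPA_all : REPA_stmt := REPA

theorem VST_all : VST_stmt := VST_main

theorem REPN_all : REPN_stmt := REPN

theorem TR_all : TR_stmt := TR

theorem EIG_all : EIG_stmt := EIG

theorem VAR_all : VAR_stmt := VAR

theorem WIG_all : WIG_stmt := WIG PER_all EIG_all

theorem BOX_all : BOX_stmt := BOX

theorem FACE_all : FACE_stmt := FACE BOX_all PDB_all

theorem PRD_all : PRD_stmt := PRD

theorem PAIR_all : PAIR_stmt := PAIR UNQ_all PH_all PH0_all EV_all BOX_all FACE_all PRD_all PDB_all LUL_all

theorem COV_all : COV_stmt := COV UNQ_all PH_all EV_all BOX_all PDB_all LUL_all PAIR_all REPN_all REPA_all VST_all TR_all GRM_all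

theorem TIM_all : TIM_stmt := TIM COV_all NRM_all

theorem PAR_all : PAR_stmt := PAR TIM_all VAR_all LUP_all LUL_all PDB_all REPN_all

theorem INVA_all : INVA_stmt := INVA

theorem SUF_all : SUF_stmt := SUF CAT_all INVA_all PAR_all WIG_all

theorem SUB_all : SUB_stmt := SUB

theorem NE1_all : NE1_stmt := NE1 PER_all

theorem NEC_all : NEC_stmt := NEC CAT_all LUP_all NE1_all SUB_all PDL_all PH0_all INVA_all

theorem BOC_all : BOC_stmt := BOC

theorem LAC1_all : LAC1_stmt := LAC1

theorem LAC2_all : LAC2_stmt := LAC2_main LAC1_all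

theorem LAC3_all : LAC3_stmt := LAC3

theorem EXZ_all : EXZ_stmt := EXZ SUPP_all BET_all LUL_all LAC1_all LAC2_all

theorem EXF_all : EXF_stmt := EXF BET_all LUL_all

theorem EXE_all : EXE_stmt := EXE EV_all EXF_all BET_all LUL_all LAC3_all

theorem EX1_all : EX1_stmt := EX1 EXE_all

theorem EX2_all : EX2_stmt := EX2 EXE_all

theorem KP_all : KP_stmt := KP

theorem CES_all : CES_stmt := CES

theorem EXM_all : EXM_stmt := EXM EXZ_all EX1_all EX2_all KP_all CES_all LUL_all

theorem EXS_all : EXS_stmt := EXS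

theorem EXP_all : EXP_stmt := EXP PDS_all PDB_all EXE_all BET_all EXS_all

theorem EXL_all : EXL_stmt := EXL SUB_all PDL_all EXM_all EXP_all

theorem AVG_all : AVG_stmt := AVG

theorem SNG_all : SNG_stmt := SNG

theorem ZS_all : ZS_stmt := ZS CAT_all INVA_all EXL_all AVG_all SNG_all SUF_all BOC_all BET_all LUL_all PDB_all

theorem FIN_all : FIN_stmt := FIN NEC_all SUF_all BOC_all ZS_all

end Pool.Agent.QS
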