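import Pool.Agent.helper4.QS.Spec

/-!
# Quantum cat maps at the shortest periods: OMB
-/

namespace Pool.Agent.QS

open Pool.Agent.helper86.CM

theorem OMB : OMB_stmt := by
  intro m n
  have h : (omega m n : ℝ) = (m (Sum.inl 0) : ℝ) * n (Sum.inr 0) - m (Sum.inr 0) * n (Sum.inl 0) := by
    simp [omega]
  have hm : ∀ i, |(m i : ℝ)| ≤ ‖m‖ := by
    intro i
    have := norm_le_pi_norm m i
    rwa [Int.norm_eq_abs] at this
  have hn : ∀ i, |(n i : ℝ)| ≤ ‖n‖ := by
    intro i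
    have := norm_le_pi_norm n i
    rwa [Int.norm_eq_abs] at this
  rw [h]
  refine (abs_sub _ _).trans ?_
  rw [abs_mul, abs_mul]
  have h1 := mul_le_mul (hm (Sum.inl 0)) (hn (Sum.inr 0)) (abs_nonneg _) (norm_nonneg _)
  have h2 := mul_le_mul (hm (Sum.inr 0)) (hn (Sum.inl 0)) (abs_nonneg _) (norm_nonneg _)
  linarith

end Pool.Agent.QS
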