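import Pool.Agent.helper4.QS.Spec

/-!
# Quantum cat maps at the shortest periods: QF0
-/

namespace Pool.Agent.QS

theorem QF0 : QF0_stmt := by
  intro t ht z y h
  have h1 : (2 * z + t * y) ^ 2 = (t ^ 2 - 4) * y ^ 2 := by linear_combination 4 * h
  by_cases hy : y = 0
  · subst hy
    have : z ^ 2 = 0 := by linarith
    exact ⟨by simpa using this, rfl⟩
  · exfalso
    have h2 : y ^ 2 ∣ (2 * z + t * y) ^ 2 := ⟨t ^ 2 - 4, by rw [h1]; ring⟩
    rw [Int.pow_dvd_pow_iff (by norm_num)] at h2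
    obtain ⟨m, hm⟩ := h2
    rw [hm] at h1
    have h3 : m ^ 2 = t ^ 2 - 4 := by
      have hy2 : y ^ 2 ≠ 0 := pow_ne_zero 2 hy
      apply mul_right_cancel₀ hy2
      rw [← h1]
      ring
    have h4 : |m| ^ 2 = t ^ 2 - 4 := by rw [sq_abs, h3]
    have h5 : |m| < t := by nlinarith [abs_nonneg m]
    have h6 : t - 1 < |m| := by nlinarith [abs_nonneg m]
    omega

end Pool.Agent.QS
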