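import Pool.Agent.helper62.QS.Spec

/-!
# Project qs, row SCM: transfer of matrix coefficients
-/

open scoped MatrixGroups ContDiff Topology UpperHalfPlane
open UpperHalfPlane MeasureTheory Filter Set

namespace Pool.Agent.QS

section SCM_general

variable {G : Type} [Group G] {V : Type} [NormedAddCommGroup V] [InnerProductSpace ℂ V]

lemma SCM_rep_apply (ρ : G →* (V ≃ₗᵢ[ℂ] V)) (a : MonoidAlgebra ℂ G) (v : V) :
    rep ρ a v = ∑ γ ∈ a.coeff.support, a.coeff γ • ρ γ v := by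
  unfold rep
  rw [sum_apply]
  rfl

lemma SCM_rep_of_subset (ρ : G →* (V ≃ₗᵢ[ℂ] V)) (a : MonoidAlgebra ℂ G) (v : V) (S : Finset G)
    (h : a.coeff.support ⊆ S) : rep ρ a v = ∑ γ ∈ S, a.coeff γ • ρ γ v := by
  rw [SCM_rep_apply]
  refine Finset.sum_subset h fun γ _ hγ => ?_
  rw [Finsupp.notMem_support_iff.1 hγ, zero_smul]

lemma SCM_rep_add (ρ : G →* (V ≃ₗᵢ[ℂ] V)) (a b : MonoidAlgebra ℂ G) (v : V) :
    rep ρ (a + b) v = rep ρ a v + rep ρ b v := by
  classical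
  rw [SCM_rep_of_subset ρ a v (a.coeff.support ∪ b.coeff.support) Finset.subset_union_left,
    SCM_rep_of_subset ρ b v (a.coeff.support ∪ b.coeff.support) Finset.subset_union_right,
    SCM_rep_of_subset ρ (a + b) v (a.coeff.support ∪ b.coeff.support) Finsupp.support_add,
    ← Finset.sum_add_distrib]
  refine Finset.sum_congr rfl fun γ _ => ?_
  rw [MonoidAlgebra.coeff_add, Finsupp.add_apply, add_smul]

lemma SCM_rep_zero (ρ : G →* (V ≃ₗᵢ[ℂ] V)) (v : V) : rep ρ 0 v = 0 := by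
  rw [SCM_rep_apply]
  simp

lemma SCM_rep_sum (ρ : G →* (V ≃ₗᵢ[ℂ] V)) {ι : Type} (s : Finset ι)
    (a : ι → MonoidAlgebra ℂ G) (v : V) : rep ρ (∑ i ∈ s, a i) v = ∑ i ∈ s, rep ρ (a i) v := by
  classical
  induction s using Finset.induction_on with
  | empty => simp [SCM_rep_zero]
  | insert i s hi ih => rw [Finset.sum_insert hi, Finset.sum_insert hi, SCM_rep_add, ih]

lemma SCM_rep_single (ρ : G →* (V ≃ₗᵢ[ℂ] V)) (g : G) (c : ℂ) (v : V) :
    rep ρ (MonoidAlgebra.single g c) v = c • ρ g v := by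
  classical
  rw [SCM_rep_of_subset ρ _ v {g} (by
    rw [MonoidAlgebra.coeff_single]
    exact Finsupp.support_single_subset), Finset.sum_singleton, MonoidAlgebra.coeff_single,
    Finsupp.single_eq_same]

lemma SCM_rep_mul (ρ : G →* (V ≃ₗᵢ[ℂ] V)) (a b : MonoidAlgebra ℂ G) (v : V) :
    rep ρ (a * b) v = rep ρ a (rep ρ b v) := by
  classical
  induction a using MonoidAlgebra.induction_linear with
  | zero => rw [zero_mul, SCM_rep_zero, SCM_rep_zero]
  | add a₁ a₂ h1 h2 => rw [add_mul, SCM_rep_add, SCM_rep_add, h1, h2]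
  | single g c =>
    induction b using MonoidAlgebra.induction_linear with
    | zero => rw [mul_zero, SCM_rep_zero, map_zero]
    | add b₁ b₂ h1 h2 => rw [mul_add, SCM_rep_add, SCM_rep_add, h1, h2, map_add]
    | single h d =>
      rw [MonoidAlgebra.single_mul_single, SCM_rep_single, SCM_rep_single, SCM_rep_single,
        map_mul, map_smul, smul_smul]
      rfl

lemma SCM_norm_rep (ρ : G →* (V ≃ₗᵢ[ℂ] V)) (a : MonoidAlgebra ℂ G) (v : V) :
    ‖rep ρ a v‖ ≤ (∑ γ ∈ a.coeff.support, ‖a.coeff γ‖) * ‖v‖ := by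
  rw [SCM_rep_apply, Finset.sum_mul]
  refine norm_sum_le_of_le _ fun γ _ => ?_
  rw [norm_smul, LinearIsometryEquiv.norm_map]

lemma SCM_adj (ρ : G →* (V ≃ₗᵢ[ℂ] V)) (a b : MonoidAlgebra ℂ G)
    (h : ∀ γ, a.coeff γ = star (b.coeff γ⁻¹)) (v w : V) :
    inner ℂ v (rep ρ a w) = inner ℂ (rep ρ b v) w := by
  classical
  have hS : b.coeff.support = a.coeff.support.image (fun γ => γ⁻¹) := by
    ext γ
    rw [Finset.mem_image, Finsupp.mem_support_iff]
    constructor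
    · intro hγ
      refine ⟨γ⁻¹, ?_, inv_inv γ⟩
      rw [Finsupp.mem_support_iff, h, inv_inv]
      exact fun h0 => hγ (star_eq_zero.1 h0)
    · rintro ⟨δ, hδ, rfl⟩
      rw [Finsupp.mem_support_iff, h] at hδ
      exact fun h0 => hδ (by rw [h0, star_zero])
  rw [SCM_rep_apply, SCM_rep_apply, inner_sum, sum_inner, hS,
    Finset.sum_image (fun x _ y _ hxy => inv_injective hxy)]
  refine Finset.sum_congr rfl fun γ _ => ?_
  rw [inner_smul_right, inner_smul_left, h γ]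
  have h1 : inner ℂ v (ρ γ w) = inner ℂ (ρ γ⁻¹ v) w := by
    rw [← LinearIsometryEquiv.inner_map_map (ρ γ) (ρ γ⁻¹ v) w]
    congr 1
    rw [map_inv]
    exact ((ρ γ).apply_symm_apply v).symm
  rw [h1]
  rfl

/-- the operator of a matrix over the group algebra -/
noncomputable def SCM_A {k : ℕ} (ρ : G →* (V ≃ₗᵢ[ℂ] V))
    (P : Matrix (Fin k) (Fin k) (MonoidAlgebra ℂ G)) (v : PiLp 2 (fun _ : Fin k => V)) :
    PiLp 2 (fun _ : Fin k => V) :=
  WithLp.toLp 2 (fun i => ∑ j, rep ρ (P i j) (v j))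

lemma SCM_A_apply {k : ℕ} (ρ : G →* (V ≃ₗᵢ[ℂ] V))
    (P : Matrix (Fin k) (Fin k) (MonoidAlgebra ℂ G)) (v : PiLp 2 (fun _ : Fin k => V))
    (i : Fin k) : SCM_A ρ P v i = ∑ j, rep ρ (P i j) (v j) := rfl

lemma SCM_A_mul {k : ℕ} (ρ : G →* (V ≃ₗᵢ[ℂ] V))
    (P Q : Matrix (Fin k) (Fin k) (MonoidAlgebra ℂ G)) (v : PiLp 2 (fun _ : Fin k => V)) :
    SCM_A ρ (P * Q) v = SCM_A ρ P (SCM_A ρ Q v) := by
  ext i
  rw [SCM_A_apply, SCM_A_apply]
  simp only [Matrix.mul_apply, SCM_rep_sum, SCM_rep_mul, SCM_A_apply, map_sum]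
  rw [Finset.sum_comm]

lemma SCM_A_one {k : ℕ} (ρ : G →* (V ≃ₗᵢ[ℂ] V)) (v : PiLp 2 (fun _ : Fin k => V)) :
    SCM_A ρ (1 : Matrix (Fin k) (Fin k) (MonoidAlgebra ℂ G)) v = v := by
  ext i
  rw [SCM_A_apply, Finset.sum_eq_single i]
  · rw [Matrix.one_apply_eq, MonoidAlgebra.one_def, SCM_rep_single, map_one, one_smul]
    rfl
  · intro j _ hj
    rw [Matrix.one_apply_ne hj.symm, SCM_rep_zero]
  · intro h
    exact absurd (Finset.mem_univ i) h

lemma SCM_A_pow {k : ℕ} (ρ : G →* (V ≃ₗᵢ[ℂ] V))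
    (P : Matrix (Fin k) (Fin k) (MonoidAlgebra ℂ G)) (N : ℕ) (v : PiLp 2 (fun _ : Fin k => V)) :
    SCM_A ρ (P ^ (N + 1)) v = SCM_A ρ (P ^ N) (SCM_A ρ P v) := by
  rw [pow_succ, SCM_A_mul]

/-- adding a scalar -/
noncomputable def SCM_P {k : ℕ} (m : Fin k → Fin k → MonoidAlgebra ℂ G) (c : ℝ) :
    Matrix (Fin k) (Fin k) (MonoidAlgebra ℂ G) :=
  Matrix.of m + Matrix.diagonal (fun _ => MonoidAlgebra.single 1 (c : ℂ))

lemma SCM_A_P {k : ℕ} (ρ : G →* (V ≃ₗᵢ[ℂ] V)) (m : Fin k → Fin k → MonoidAlgebra ℂ G) (c : ℝ)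
    (v : PiLp 2 (fun _ : Fin k => V)) :
    SCM_A ρ (SCM_P m c) v = SCM_A ρ (Matrix.of m) v + (c : ℂ) • v := by
  ext i
  rw [SCM_A_apply]
  simp only [SCM_P, Matrix.add_apply, SCM_rep_add, Finset.sum_add_distrib]
  congr 1
  rw [Finset.sum_eq_single i]
  · rw [Matrix.diagonal_apply_eq, SCM_rep_single, map_one]
    rfl
  · intro j _ hj
    rw [Matrix.diagonal_apply_ne _ hj.symm, SCM_rep_zero]
  · intro h
    exact absurd (Finset.mem_univ i) h

lemma SCM_A_norm {k : ℕ} (ρ : G →* (V ≃ₗᵢ[ℂ] V))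
    (P : Matrix (Fin k) (Fin k) (MonoidAlgebra ℂ G)) (D : Fin k → Fin k → ℝ)
    (hD : ∀ i j v, ‖rep ρ (P i j) v‖ ≤ D i j * ‖v‖) (hD0 : ∀ i j, 0 ≤ D i j)
    (v : PiLp 2 (fun _ : Fin k => V)) : ‖SCM_A ρ P v‖ ≤ (∑ i, ∑ j, D i j) * ‖v‖ := by
  have h0 : SCM_A ρ P v = ∑ i, ∑ j, PiLp.single 2 i (rep ρ (P i j) (v j)) := by
    ext l
    rw [SCM_A_apply]
    simp only [WithLp.ofLp_sum, Finset.sum_apply]
    symm
    rw [Finset.sum_eq_single l]
    · refine Finset.sum_congr rfl fun j _ => ?_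
      simp
    · intro i _ hi
      refine Finset.sum_eq_zero fun j _ => ?_
      simp [hi.symm]
    · intro h
      exact absurd (Finset.mem_univ l) h
  rw [h0, Finset.sum_mul]
  refine norm_sum_le_of_le _ fun i _ => ?_
  rw [Finset.sum_mul]
  refine norm_sum_le_of_le _ fun j _ => ?_
  rw [PiLp.norm_single]
  refine (hD i j (v j)).trans ?_
  exact mul_le_mul_of_nonneg_left (PiLp.norm_apply_le v j) (hD0 i j)

lemma SCM_A_adj {k : ℕ} (ρ : G →* (V ≃ₗᵢ[ℂ] V)) (m : Fin k → Fin k → MonoidAlgebra ℂ G)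
    (hm : ∀ i j γ, (m i j).coeff γ = star ((m j i).coeff γ⁻¹))
    (v w : PiLp 2 (fun _ : Fin k => V)) :
    inner ℂ v (SCM_A ρ (Matrix.of m) w) = inner ℂ (SCM_A ρ (Matrix.of m) v) w := by
  rw [PiLp.inner_apply, PiLp.inner_apply]
  simp only [SCM_A_apply, inner_sum, sum_inner, Matrix.of_apply]
  rw [Finset.sum_comm]
  refine Finset.sum_congr rfl fun i _ => Finset.sum_congr rfl fun j _ => ?_
  exact SCM_adj ρ _ _ (hm j i) _ _

lemma SCM_P_adj {k : ℕ} (ρ : G →* (V ≃ₗᵢ[ℂ] V)) (m : Fin k → Fin k → MonoidAlgebra ℂ G)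
    (hm : ∀ i j γ, (m i j).coeff γ = star ((m j i).coeff γ⁻¹)) (c : ℝ)
    (v w : PiLp 2 (fun _ : Fin k => V)) :
    inner ℂ v (SCM_A ρ (SCM_P m c) w) = inner ℂ (SCM_A ρ (SCM_P m c) v) w := by
  rw [SCM_A_P, SCM_A_P, inner_add_right, inner_add_left, SCM_A_adj ρ m hm, inner_smul_right,
    inner_smul_left, Complex.conj_ofReal]

end SCM_general

lemma SCM_pos {E : Type} [NormedAddCommGroup E] [InnerProductSpace ℂ E] (T : E → E)
    (hsub : ∀ x y, T (x - y) = T x - T y) (hsmul : ∀ (c : ℂ) x, T (c • x) = c • T x)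
    (hsymm : ∀ x y, inner ℂ x (T y) = inner ℂ (T x) y) (C : ℝ) (hC : 0 < C)
    (h0 : ∀ x, 0 ≤ (inner ℂ x (T x)).re) (h1 : ∀ x, (inner ℂ x (T x)).re ≤ C * ‖x‖ ^ 2) (x : E) :
    ‖T x‖ ≤ C * ‖x‖ := by
  have h2 := h0 ((C : ℂ) • x - T x)
  rw [hsub, hsmul, inner_sub_left, inner_sub_right, inner_sub_right, inner_smul_left,
    inner_smul_left, inner_smul_right, inner_smul_right, Complex.conj_ofReal, hsymm x (T x)] at h2
  have h3 := h1 (T x)
  have h4 := h1 x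
  have h5 : (inner ℂ (T x) (T x)) = ((‖T x‖ ^ 2 : ℝ) : ℂ) := by
    rw [inner_self_eq_norm_sq_to_K]
    norm_cast
  rw [h5] at h2
  simp only [Complex.sub_re, Complex.mul_re, Complex.ofReal_re, Complex.ofReal_im, zero_mul,
    sub_zero, mul_zero] at h2
  have h6 : ‖T x‖ ^ 2 ≤ (C * ‖x‖) ^ 2 := by
    have e1 : C * ‖T x‖ ^ 2 ≤ C * (C * (inner ℂ x (T x)).re) := by nlinarith
    have e2 := le_of_mul_le_mul_left e1 hC
    have e3 : C * (inner ℂ x (T x)).re ≤ C * (C * ‖x‖ ^ 2) := mul_le_mul_of_nonneg_left h4 hC.le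
    nlinarith
  exact le_of_sq_le_sq h6 (by positivity)

section SCM_reg
variable (G : Type) [Group G]

lemma SCM_ip_eq {G : Type} [Group G] (u v : MonoidAlgebra ℂ G) (S : Finset G)
    (h : u.coeff.support ⊆ S) : ip u v = ∑ γ ∈ S, star (u.coeff γ) * v.coeff γ := by
  unfold ip
  refine Finset.sum_subset h ?_
  intro γ _ hγ
  rw [Finsupp.notMem_support_iff.1 hγ, star_zero, zero_mul]

@[instance_reducible]
noncomputable def SCM_core : InnerProductSpace.Core ℂ (MonoidAlgebra ℂ G) where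
  inner := ip
  conj_inner_symm u v := by
    classical
    rw [SCM_ip_eq v u (u.coeff.support ∪ v.coeff.support) Finset.subset_union_right,
      SCM_ip_eq u v (u.coeff.support ∪ v.coeff.support) Finset.subset_union_left, map_sum]
    refine Finset.sum_congr rfl fun γ _ => ?_
    simp [mul_comm]
  re_inner_nonneg u := by
    unfold ip
    rw [map_sum]
    refine Finset.sum_nonneg fun γ _ => ?_
    simp only [RCLike.star_def, RCLike.conj_mul]
    norm_cast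
    positivity
  add_left u v w := by
    classical
    rw [SCM_ip_eq u w (u.coeff.support ∪ v.coeff.support) Finset.subset_union_left,
      SCM_ip_eq v w (u.coeff.support ∪ v.coeff.support) Finset.subset_union_right,
      SCM_ip_eq (u + v) w (u.coeff.support ∪ v.coeff.support) Finsupp.support_add,
      ← Finset.sum_add_distrib]
    refine Finset.sum_congr rfl fun γ _ => ?_
    rw [MonoidAlgebra.coeff_add, Finsupp.add_apply, star_add, add_mul]
  smul_left u v r := by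
    rw [SCM_ip_eq (r • u) v u.coeff.support (by
      rw [MonoidAlgebra.coeff_smul]
      exact Finsupp.support_smul)]
    unfold ip
    rw [Finset.mul_sum]
    refine Finset.sum_congr rfl fun γ _ => ?_
    rw [MonoidAlgebra.coeff_smul_apply, smul_eq_mul, star_mul']
    simp [mul_assoc]
  definite u h := by
    have h1 : ∑ γ ∈ u.coeff.support, ‖u.coeff γ‖ ^ 2 = 0 := by
      have e : ip u u = ((∑ γ ∈ u.coeff.support, ‖u.coeff γ‖ ^ 2 : ℝ) : ℂ) := by
        unfold ip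
        push_cast
        refine Finset.sum_congr rfl fun γ _ => ?_
        simp only [RCLike.star_def, RCLike.conj_mul]
        norm_cast
      rw [e] at h
      exact_mod_cast h
    rw [Finset.sum_eq_zero_iff_of_nonneg (fun γ _ => by positivity)] at h1
    ext γ
    by_contra hγ
    have h2 := h1 γ (Finsupp.mem_support_iff.2 hγ)
    rw [sq_eq_zero_iff, norm_eq_zero] at h2
    exact hγ h2

/-- the group algebra with the `ℓ²` norm -/
def SCM_W : Type := MonoidAlgebra ℂ G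

noncomputable instance SCM_inst1 : NormedAddCommGroup (SCM_W G) :=
  @InnerProductSpace.Core.toNormedAddCommGroup ℂ (MonoidAlgebra ℂ G) _ _ _ (SCM_core G)

noncomputable instance SCM_inst2 : InnerProductSpace ℂ (SCM_W G) :=
  @InnerProductSpace.ofCore ℂ (MonoidAlgebra ℂ G) _ _ _ (SCM_core G).toCore

end SCM_reg

variable {G : Type} [Group G]

set_option linter.unusedSectionVars false

/-- the identity -/
def SCM_un (u : SCM_W G) : MonoidAlgebra ℂ G := u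

/-- the identity -/
def SCM_mk (u : MonoidAlgebra ℂ G) : SCM_W G := u

lemma SCM_un_mk (u : MonoidAlgebra ℂ G) : SCM_un (SCM_mk u) = u := rfl

lemma SCM_un_add (u v : SCM_W G) : SCM_un (u + v) = SCM_un u + SCM_un v := rfl

lemma SCM_un_smul (c : ℂ) (u : SCM_W G) : SCM_un (c • u) = c • SCM_un u := rfl

lemma SCM_un_zero : SCM_un (0 : SCM_W G) = 0 := rfl

lemma SCM_un_inj {u v : SCM_W G} (h : SCM_un u = SCM_un v) : u = v := h

lemma SCM_W_inner (u v : SCM_W G) : inner ℂ u v = ip (SCM_un u) (SCM_un v) := rfl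

lemma SCM_W_norm_sq (u : SCM_W G) : ‖u‖ ^ 2 = (ip (SCM_un u) (SCM_un u)).re :=
  (inner_self_eq_norm_sq (𝕜 := ℂ) u).symm

lemma SCM_W_norm (u : SCM_W G) : ‖u‖ = l2 (SCM_un u) := by
  have h1 : ‖u‖ ^ 2 = l2 (SCM_un u) ^ 2 := by
    rw [SCM_W_norm_sq]
    unfold ip l2
    rw [Real.sq_sqrt (Finset.sum_nonneg fun γ _ => by positivity), Complex.re_sum]
    refine Finset.sum_congr rfl fun γ _ => ?_
    simp only [RCLike.star_def, RCLike.conj_mul]
    norm_cast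
  exact (sq_eq_sq₀ (norm_nonneg _) (Real.sqrt_nonneg _)).1 h1

lemma SCM_ip_single (g : G) (u v : MonoidAlgebra ℂ G) :
    ip (MonoidAlgebra.single g 1 * u) (MonoidAlgebra.single g 1 * v) = ip u v := by
  classical
  have hc : ∀ (w : MonoidAlgebra ℂ G) (x : G),
      (MonoidAlgebra.single g 1 * w).coeff x = w.coeff (g⁻¹ * x) := by
    intro w x
    rw [MonoidAlgebra.coeff_single_mul_eq_mul_coeff (g⁻¹ * x) (fun m' _ => by
      constructor
      · rintro rfl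
        group
      · rintro rfl
        group), one_mul]
  have hs : (MonoidAlgebra.single g 1 * u).coeff.support ⊆ u.coeff.support.image (fun x => g * x) := by
    intro x hx
    rw [Finsupp.mem_support_iff, hc] at hx
    rw [Finset.mem_image]
    exact ⟨g⁻¹ * x, Finsupp.mem_support_iff.2 hx, by group⟩
  rw [SCM_ip_eq _ _ _ hs, Finset.sum_image (fun x _ y _ hxy => mul_left_cancel hxy)]
  unfold ip
  refine Finset.sum_congr rfl fun x _ => ?_
  rw [hc, hc, inv_mul_cancel_left]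

/-- the left regular representation -/
noncomputable def SCM_lam : G →* (SCM_W G ≃ₗᵢ[ℂ] SCM_W G) where
  toFun g :=
    { toFun := fun u => SCM_mk (MonoidAlgebra.single g 1 * SCM_un u)
      invFun := fun u => SCM_mk (MonoidAlgebra.single g⁻¹ 1 * SCM_un u)
      map_add' := fun u v => by
        apply SCM_un_inj
        exact mul_add (MonoidAlgebra.single g 1) (SCM_un u) (SCM_un v)
      map_smul' := fun c u => by
        apply SCM_un_inj
        exact mul_smul_comm c (MonoidAlgebra.single g (1 : ℂ)) (SCM_un u)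
      left_inv := fun u => by
        apply SCM_un_inj
        rw [SCM_un_mk, SCM_un_mk, ← mul_assoc, MonoidAlgebra.single_mul_single, inv_mul_cancel,
          one_mul, ← MonoidAlgebra.one_def, one_mul]
      right_inv := fun u => by
        apply SCM_un_inj
        rw [SCM_un_mk, SCM_un_mk, ← mul_assoc, MonoidAlgebra.single_mul_single, mul_inv_cancel,
          one_mul, ← MonoidAlgebra.one_def, one_mul]
      norm_map' := fun u => by
        have h1 : ‖SCM_mk (MonoidAlgebra.single g 1 * SCM_un u)‖ ^ 2 = ‖u‖ ^ 2 := by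
          rw [SCM_W_norm_sq, SCM_W_norm_sq, SCM_un_mk, SCM_ip_single]
        exact (sq_eq_sq₀ (norm_nonneg _) (norm_nonneg _)).1 h1 }
  map_one' := by
    ext u
    apply SCM_un_inj
    show MonoidAlgebra.single 1 1 * SCM_un u = SCM_un u
    rw [← MonoidAlgebra.one_def, one_mul]
  map_mul' g h := by
    ext u
    apply SCM_un_inj
    show MonoidAlgebra.single (g * h) 1 * SCM_un u =
      MonoidAlgebra.single g 1 * (MonoidAlgebra.single h 1 * SCM_un u)
    rw [← mul_assoc, MonoidAlgebra.single_mul_single, one_mul]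

lemma SCM_rep_lam (a : MonoidAlgebra ℂ G) (u : SCM_W G) :
    SCM_un (rep SCM_lam a u) = a * SCM_un u := by
  induction a using MonoidAlgebra.induction_linear with
  | zero => rw [SCM_rep_zero, SCM_un_zero, zero_mul]
  | add a₁ a₂ h1 h2 => rw [SCM_rep_add, SCM_un_add, h1, h2, add_mul]
  | single g c =>
    rw [SCM_rep_single, SCM_un_smul]
    show c • (MonoidAlgebra.single g 1 * SCM_un u) = MonoidAlgebra.single g c * SCM_un u
    rw [← smul_mul_assoc, MonoidAlgebra.smul_single, smul_eq_mul, mul_one]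

section SCM_pow

variable {V : Type} [NormedAddCommGroup V] [InnerProductSpace ℂ V]

lemma SCM_A_sub {k : ℕ} (ρ : G →* (V ≃ₗᵢ[ℂ] V))
    (P : Matrix (Fin k) (Fin k) (MonoidAlgebra ℂ G)) (v w : PiLp 2 (fun _ : Fin k => V)) :
    SCM_A ρ P (v - w) = SCM_A ρ P v - SCM_A ρ P w := by
  ext i
  rw [SCM_A_apply, PiLp.sub_apply, SCM_A_apply, SCM_A_apply, ← Finset.sum_sub_distrib]
  refine Finset.sum_congr rfl fun j _ => ?_
  rw [PiLp.sub_apply, map_sub]

lemma SCM_A_smul {k : ℕ} (ρ : G →* (V ≃ₗᵢ[ℂ] V))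
    (P : Matrix (Fin k) (Fin k) (MonoidAlgebra ℂ G)) (c : ℂ) (v : PiLp 2 (fun _ : Fin k => V)) :
    SCM_A ρ P (c • v) = c • SCM_A ρ P v := by
  ext i
  rw [SCM_A_apply, PiLp.smul_apply, SCM_A_apply, Finset.smul_sum]
  refine Finset.sum_congr rfl fun j _ => ?_
  rw [PiLp.smul_apply, map_smul]

lemma SCM_pow_adj {k : ℕ} (ρ : G →* (V ≃ₗᵢ[ℂ] V))
    (P : Matrix (Fin k) (Fin k) (MonoidAlgebra ℂ G))
    (hP : ∀ v w : PiLp 2 (fun _ : Fin k => V), inner ℂ v (SCM_A ρ P w) = inner ℂ (SCM_A ρ P v) w)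
    (N : ℕ) : ∀ v w : PiLp 2 (fun _ : Fin k => V),
      inner ℂ v (SCM_A ρ (P ^ N) w) = inner ℂ (SCM_A ρ (P ^ N) v) w := by
  induction N with
  | zero =>
    intro v w
    rw [pow_zero, SCM_A_one, SCM_A_one]
  | succ N ih =>
    intro v w
    rw [SCM_A_pow, ih, hP, pow_succ', SCM_A_mul]

lemma SCM_pow2 {k : ℕ} (ρ : G →* (V ≃ₗᵢ[ℂ] V))
    (P : Matrix (Fin k) (Fin k) (MonoidAlgebra ℂ G))
    (hP : ∀ v w : PiLp 2 (fun _ : Fin k => V), inner ℂ v (SCM_A ρ P w) = inner ℂ (SCM_A ρ P v) w)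
    (x : PiLp 2 (fun _ : Fin k => V)) (hx : 0 < ‖x‖) (l : ℕ) :
    ‖SCM_A ρ P x‖ ^ (2 ^ l) * ‖x‖ ≤ ‖x‖ ^ (2 ^ l) * ‖SCM_A ρ (P ^ (2 ^ l)) x‖ := by
  induction l with
  | zero =>
    rw [pow_zero, pow_one, pow_one, pow_one, mul_comm]
  | succ l ih =>
    set N := 2 ^ l with hN
    have h1 : ‖SCM_A ρ (P ^ N) x‖ ^ 2 ≤ ‖x‖ * ‖SCM_A ρ (P ^ (2 ^ (l + 1))) x‖ := by
      have e1 : P ^ (2 ^ (l + 1)) = P ^ N * P ^ N := by
        rw [← pow_add, hN]
        congr 1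
        ring
      rw [e1, SCM_A_mul]
      have e2 : ‖SCM_A ρ (P ^ N) x‖ ^ 2 =
          (inner ℂ x (SCM_A ρ (P ^ N) (SCM_A ρ (P ^ N) x))).re := by
        rw [SCM_pow_adj ρ P hP]
        exact (inner_self_eq_norm_sq (𝕜 := ℂ) _).symm
      rw [e2]
      exact (Complex.re_le_norm _).trans (norm_inner_le_norm _ _)
    have h2 : (‖SCM_A ρ P x‖ ^ N * ‖x‖) ^ 2 ≤ (‖x‖ ^ N * ‖SCM_A ρ (P ^ N) x‖) ^ 2 :=
      pow_le_pow_left₀ (by positivity) ih 2
    have h3 : ‖SCM_A ρ P x‖ ^ (2 ^ (l + 1)) = (‖SCM_A ρ P x‖ ^ N) ^ 2 := by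
      rw [← pow_mul, hN, pow_succ]
    have h4 : ‖x‖ ^ (2 ^ (l + 1)) = (‖x‖ ^ N) ^ 2 := by
      rw [← pow_mul, hN, pow_succ]
    rw [h3, h4]
    refine le_of_mul_le_mul_right ?_ hx
    calc (‖SCM_A ρ P x‖ ^ N) ^ 2 * ‖x‖ * ‖x‖ = (‖SCM_A ρ P x‖ ^ N * ‖x‖) ^ 2 := by ring
      _ ≤ (‖x‖ ^ N * ‖SCM_A ρ (P ^ N) x‖) ^ 2 := h2
      _ = (‖x‖ ^ N) ^ 2 * ‖SCM_A ρ (P ^ N) x‖ ^ 2 := by ring
      _ ≤ (‖x‖ ^ N) ^ 2 * (‖x‖ * ‖SCM_A ρ (P ^ (2 ^ (l + 1))) x‖) :=
        mul_le_mul_of_nonneg_left h1 (by positivity)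
      _ = (‖x‖ ^ N) ^ 2 * ‖SCM_A ρ (P ^ (2 ^ (l + 1))) x‖ * ‖x‖ := by ring

end SCM_pow

/-- the bound in the regular representation -/
lemma SCM_regular (k : ℕ) (m : Fin k → Fin k → MonoidAlgebra ℂ G) (s : ℝ)
    (hk : 0 < k) (hm : ∀ i j γ, (m i j).coeff γ = star ((m j i).coeff γ⁻¹))
    (hform : ∀ e : Fin k → MonoidAlgebra ℂ G,
      (∑ i, ∑ j, ip (e i) (m i j * e j)).re ≤ s * ∑ i, l2 (e i) ^ 2) :
    ∃ c : ℝ, 1 ≤ s + c ∧ ∀ (N : ℕ) (i j : Fin k), regNorm ((SCM_P m c ^ N) i j) ≤ (s + c) ^ N := by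
  classical
  set c : ℝ := ∑ i, ∑ j, ∑ γ ∈ (m i j).coeff.support, ‖(m i j).coeff γ‖ with hc
  have hin : ∀ x : PiLp 2 (fun _ : Fin k => SCM_W G),
      inner ℂ x (SCM_A SCM_lam (Matrix.of m) x) =
        ∑ i, ∑ j, ip (SCM_un (x i)) (m i j * SCM_un (x j)) := by
    intro x
    rw [PiLp.inner_apply]
    refine Finset.sum_congr rfl fun i _ => ?_
    rw [SCM_A_apply, inner_sum]
    refine Finset.sum_congr rfl fun j _ => ?_
    exact congrArg (ip (SCM_un (x i))) (SCM_rep_lam (m i j) (x j))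
  have hnorm : ∀ x : PiLp 2 (fun _ : Fin k => SCM_W G), ‖x‖ ^ 2 = ∑ i, l2 (SCM_un (x i)) ^ 2 := by
    intro x
    rw [PiLp.norm_sq_eq_of_L2]
    refine Finset.sum_congr rfl fun i _ => ?_
    rw [SCM_W_norm]
  have h1 : ∀ x : PiLp 2 (fun _ : Fin k => SCM_W G),
      (inner ℂ x (SCM_A SCM_lam (Matrix.of m) x)).re ≤ s * ‖x‖ ^ 2 := by
    intro x
    rw [hin, hnorm]
    exact hform _
  have h2 : ∀ x : PiLp 2 (fun _ : Fin k => SCM_W G),
      -(c * ‖x‖ ^ 2) ≤ (inner ℂ x (SCM_A SCM_lam (Matrix.of m) x)).re := by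
    intro x
    have e1 : ‖SCM_A SCM_lam (Matrix.of m) x‖ ≤ c * ‖x‖ :=
      SCM_A_norm SCM_lam (Matrix.of m)
        (fun i j => ∑ γ ∈ (m i j).coeff.support, ‖(m i j).coeff γ‖)
        (fun i j v => SCM_norm_rep SCM_lam (m i j) v)
        (fun i j => Finset.sum_nonneg fun γ _ => norm_nonneg _) x
    have e2 := Complex.abs_re_le_norm (inner ℂ x (SCM_A SCM_lam (Matrix.of m) x))
    have e3 := norm_inner_le_norm (𝕜 := ℂ) x (SCM_A SCM_lam (Matrix.of m) x)
    have e4 : ‖x‖ * ‖SCM_A SCM_lam (Matrix.of m) x‖ ≤ ‖x‖ * (c * ‖x‖) :=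
      mul_le_mul_of_nonneg_left e1 (norm_nonneg _)
    have e5 := neg_abs_le (inner ℂ x (SCM_A SCM_lam (Matrix.of m) x)).re
    nlinarith
  have hsc : 0 ≤ s + c := by
    set x : PiLp 2 (fun _ : Fin k => SCM_W G) :=
      PiLp.single 2 ⟨0, hk⟩ (SCM_mk (MonoidAlgebra.single 1 1)) with hx
    have hxn : 0 < ‖x‖ := by
      rw [hx, PiLp.norm_single, norm_pos_iff]
      intro h0
      have h3 : (MonoidAlgebra.single (1 : G) (1 : ℂ)) = 0 := h0
      rw [MonoidAlgebra.single_eq_zero] at h3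
      exact one_ne_zero h3
    have h3 := h1 x
    have h4 := h2 x
    have h5 : 0 < ‖x‖ ^ 2 := by positivity
    by_contra hcon
    push Not at hcon
    nlinarith
  refine ⟨c + 1, by linarith, ?_⟩
  have hC : 0 < s + (c + 1) := by linarith
  have hP : ∀ x : PiLp 2 (fun _ : Fin k => SCM_W G),
      (inner ℂ x (SCM_A SCM_lam (SCM_P m (c + 1)) x)).re =
        (inner ℂ x (SCM_A SCM_lam (Matrix.of m) x)).re + (c + 1) * ‖x‖ ^ 2 := by
    intro x
    rw [SCM_A_P, inner_add_right, inner_smul_right, Complex.add_re, Complex.re_ofReal_mul]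
    congr 2
    exact inner_self_eq_norm_sq (𝕜 := ℂ) x
  have hT : ∀ x : PiLp 2 (fun _ : Fin k => SCM_W G),
      ‖SCM_A SCM_lam (SCM_P m (c + 1)) x‖ ≤ (s + (c + 1)) * ‖x‖ :=
    SCM_pos _ (SCM_A_sub SCM_lam _) (SCM_A_smul SCM_lam _) (SCM_P_adj SCM_lam m hm (c + 1)) _ hC
      (fun x => by
        rw [hP]
        have := h2 x
        nlinarith [sq_nonneg ‖x‖])
      (fun x => by
        rw [hP]
        have := h1 x
        nlinarith [sq_nonneg ‖x‖])
  have hTN : ∀ (N : ℕ) (x : PiLp 2 (fun _ : Fin k => SCM_W G)),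
      ‖SCM_A SCM_lam (SCM_P m (c + 1) ^ N) x‖ ≤ (s + (c + 1)) ^ N * ‖x‖ := by
    intro N
    induction N with
    | zero =>
      intro x
      rw [pow_zero, SCM_A_one, pow_zero, one_mul]
    | succ N ih =>
      intro x
      rw [SCM_A_pow, pow_succ, mul_assoc]
      exact (ih _).trans (mul_le_mul_of_nonneg_left (hT x) (by positivity))
  intro N i j
  unfold regNorm
  refine csInf_le ⟨0, fun y hy => hy.1⟩ ⟨by positivity, fun u => ?_⟩
  have h3 := hTN N (PiLp.single 2 j (SCM_mk u))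
  rw [PiLp.norm_single, SCM_W_norm, SCM_un_mk] at h3
  have h4 := PiLp.norm_apply_le (SCM_A SCM_lam (SCM_P m (c + 1) ^ N)
    (PiLp.single 2 j (SCM_mk u))) i
  rw [SCM_A_apply, Finset.sum_eq_single j] at h4
  · have h5 : (PiLp.single 2 j (SCM_mk u) : PiLp 2 (fun _ : Fin k => SCM_W G)) j = SCM_mk u := by
      simp
    rw [h5, SCM_W_norm, SCM_rep_lam, SCM_un_mk] at h4
    exact h4.trans h3
  · intro j' _ hj'
    have h5 : (PiLp.single 2 j (SCM_mk u) : PiLp 2 (fun _ : Fin k => SCM_W G)) j' = 0 := by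
      simp [hj']
    rw [h5, map_zero]
  · intro h
    exact absurd (Finset.mem_univ j) h

theorem SCM : SCM_stmt := by
  classical
  intro G _ V _ _ _ ρ hρ k m s hm hform ε hε
  rcases Nat.eq_zero_or_pos k with rfl | hk
  · refine Eventually.of_forall fun n v => ?_
    simp
  obtain ⟨c, hC1, hreg⟩ := SCM_regular k m s hk hm hform
  set C : ℝ := s + c with hCdef
  have hC0 : 0 < C := by linarith
  -- choice of the power
  obtain ⟨l, hl⟩ : ∃ l : ℕ, 2 * (k : ℝ) ^ 2 * C ^ (2 ^ l) ≤ (C + ε) ^ (2 ^ l) := by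
    obtain ⟨l, hl⟩ := exists_nat_gt (2 * (k : ℝ) ^ 2 / (ε / C))
    refine ⟨l, ?_⟩
    have h1 : 2 * (k : ℝ) ^ 2 ≤ (2 ^ l : ℕ) * (ε / C) := by
      have e1 : (l : ℝ) ≤ (2 ^ l : ℕ) := by exact_mod_cast Nat.lt_two_pow_self.le
      have e2 : 0 < ε / C := by positivity
      rw [div_lt_iff₀ e2] at hl
      nlinarith
    have h2 : 1 + (2 ^ l : ℕ) * (ε / C) ≤ (1 + ε / C) ^ (2 ^ l) :=
      one_add_mul_le_pow (by
        have : 0 < ε / C := by positivity
        linarith) _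
    have h3 : C + ε = C * (1 + ε / C) := by
      field_simp
    rw [h3, mul_pow]
    have h4 : 0 < C ^ (2 ^ l) := by positivity
    nlinarith
  set N : ℕ := 2 ^ l with hN
  have hev : ∀ᶠ n in atTop, ∀ i j, ‖rep (ρ n) ((SCM_P m c ^ N) i j)‖ ≤
      regNorm ((SCM_P m c ^ N) i j) + 1 := by
    rw [Filter.eventually_all]
    intro i
    rw [Filter.eventually_all]
    intro j
    exact hρ _ 1 one_pos
  filter_upwards [hev] with n hn v
  set x : PiLp 2 (fun _ : Fin k => V n) := WithLp.toLp 2 v with hx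
  have hxn : ‖x‖ ^ 2 = ∑ i, ‖v i‖ ^ 2 := PiLp.norm_sq_eq_of_L2 _ x
  have hxi : (∑ i, ∑ j, inner ℂ (v i) (rep (ρ n) (m i j) (v j))) =
      inner ℂ x (SCM_A (ρ n) (Matrix.of m) x) := by
    rw [PiLp.inner_apply]
    refine Finset.sum_congr rfl fun i _ => ?_
    rw [SCM_A_apply, inner_sum]
    rfl
  rw [hxi, ← hxn]
  have hP : (inner ℂ x (SCM_A (ρ n) (SCM_P m c) x)).re =
      (inner ℂ x (SCM_A (ρ n) (Matrix.of m) x)).re + c * ‖x‖ ^ 2 := by
    rw [SCM_A_P, inner_add_right, inner_smul_right, Complex.add_re, Complex.re_ofReal_mul]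
    congr 2
    exact inner_self_eq_norm_sq (𝕜 := ℂ) x
  rcases eq_or_lt_of_le (norm_nonneg x) with h0 | h0
  · have hx0 : x = 0 := norm_eq_zero.1 h0.symm
    rw [hx0]
    simp
  have hA : ‖SCM_A (ρ n) (SCM_P m c) x‖ ≤ (C + ε) * ‖x‖ := by
    have h1 := SCM_pow2 (ρ n) (SCM_P m c) (SCM_P_adj (ρ n) m hm c) x h0 l
    have h2 := SCM_A_norm (ρ n) (SCM_P m c ^ N) (fun _ _ => C ^ N + 1)
      (fun i j w => ((rep (ρ n) ((SCM_P m c ^ N) i j)).le_opNorm w).trans
        (mul_le_mul_of_nonneg_right ((hn i j).trans (by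
          have := hreg N i j
          linarith)) (norm_nonneg _))) (fun _ _ => by positivity) x
    have h3 : (∑ _i : Fin k, ∑ _j : Fin k, (C ^ N + 1)) ≤ (C + ε) ^ N := by
      refine le_trans ?_ hl
      simp only [Finset.sum_const, Finset.card_univ, Fintype.card_fin, nsmul_eq_mul]
      have h4 : 1 ≤ C ^ N := one_le_pow₀ hC1
      have h5 : (0 : ℝ) ≤ (k : ℝ) ^ 2 := by positivity
      nlinarith
    have h4 : ‖SCM_A (ρ n) (SCM_P m c) x‖ ^ N ≤ ((C + ε) * ‖x‖) ^ N := by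
      refine le_of_mul_le_mul_right ?_ h0
      calc ‖SCM_A (ρ n) (SCM_P m c) x‖ ^ N * ‖x‖
          ≤ ‖x‖ ^ N * ‖SCM_A (ρ n) (SCM_P m c ^ N) x‖ := h1
        _ ≤ ‖x‖ ^ N * ((C + ε) ^ N * ‖x‖) :=
          mul_le_mul_of_nonneg_left (h2.trans (mul_le_mul_of_nonneg_right h3 (norm_nonneg _)))
            (by positivity)
        _ = ((C + ε) * ‖x‖) ^ N * ‖x‖ := by rw [mul_pow]; ring
    exact le_of_pow_le_pow_left₀ (by rw [hN]; positivity) (by positivity) h4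
  have h5 : (inner ℂ x (SCM_A (ρ n) (SCM_P m c) x)).re ≤ ‖x‖ * ‖SCM_A (ρ n) (SCM_P m c) x‖ :=
    (Complex.re_le_norm _).trans (norm_inner_le_norm _ _)
  nlinarith [mul_le_mul_of_nonneg_left hA h0.le]

end Pool.Agent.QS
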